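import Pool.Agent.P8H68.DO.Level

/-! The maximal function of one dyadic level at a good time. -/

set_option autoImplicit false

open MeasureTheory Set Filter
open scoped ENNReal RealInnerProductSpace

namespace Pool.Agent.P8H68.DO

open Pool.Agent.Helper93.Sph (En ek Fi shell shell_meas ind_int ek_int Fi_cont ps ps_sub)

variable {n : ℕ}

lemma ind_memLp {G : En n → ℂ} (hG : MemLp G 2) (a b : ℝ) :
    MemLp ((shell n a b).indicator G) 2 := hG.indicator (shell_meas n _ _)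

lemma shell_split (a b c : ℕ) (hab : a ≤ b) (hbc : b ≤ c) (F : En n → ℂ) (ξ : En n) :
    (shell n (a : ℝ) (c : ℝ)).indicator F ξ =
      (shell n (a : ℝ) (b : ℝ)).indicator F ξ + (shell n (b : ℝ) (c : ℝ)).indicator F ξ := by
  classical
  simp only [Set.indicator, mem_shell_iff']
  by_cases h1 : ⌊‖ξ‖⌋₊ < b
  · have h2 : ¬ (b ≤ ⌊‖ξ‖⌋₊ ∧ ⌊‖ξ‖⌋₊ < c) := by omega
    rw [if_neg h2, add_zero]
    by_cases h3 : a ≤ ⌊‖ξ‖⌋₊
    · rw [if_pos ⟨h3, by omega⟩, if_pos ⟨h3, h1⟩]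
    · rw [if_neg (by omega), if_neg (by omega)]
  · have h2 : ¬ (a ≤ ⌊‖ξ‖⌋₊ ∧ ⌊‖ξ‖⌋₊ < b) := by omega
    rw [if_neg h2, zero_add]
    by_cases h3 : ⌊‖ξ‖⌋₊ < c
    · rw [if_pos ⟨by omega, h3⟩, if_pos ⟨by omega, h3⟩]
    · rw [if_neg (by omega), if_neg (by omega)]

/-- sums of consecutive pieces -/
lemma blocksum {H : En n → ℂ} (hH : MemLp H 2) (k : ℕ) (x : En n) (p q : ℕ) (hpq : p ≤ q) :
    ∑ i ∈ Finset.Ico p q, Fi (pc k i H) x =
      Fi ((shell n ((2 ^ k + p : ℕ) : ℝ) ((2 ^ k + q : ℕ) : ℝ)).indicator (dya k H)) x := by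
  have hd : MemLp (dya k H) 2 := ind_memLp hH _ _
  induction q, hpq using Nat.le_induction with
  | base =>
    have h0 : (shell n ((2 ^ k + p : ℕ) : ℝ) ((2 ^ k + p : ℕ) : ℝ)).indicator (dya k H) = 0 := by
      funext ξ
      simp only [Set.indicator, mem_shell_iff']
      rw [if_neg (by omega)]
      rfl
    rw [h0]
    simp [Fi]
  | succ q hq ih =>
    rw [Finset.sum_Ico_succ_top hq, ih]
    have h1 : (shell n ((2 ^ k + p : ℕ) : ℝ) ((2 ^ k + (q + 1) : ℕ) : ℝ)).indicator (dya k H) =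
        fun ξ => (shell n ((2 ^ k + p : ℕ) : ℝ) ((2 ^ k + q : ℕ) : ℝ)).indicator (dya k H) ξ +
          pc k q H ξ := by
      funext ξ
      exact shell_split (2 ^ k + p) (2 ^ k + q) (2 ^ k + (q + 1)) (by omega) (by omega) _ ξ
    have h2 : Integrable (fun ξ => ek x ξ * pc k q H ξ) := ek_int (ind_int hd _ _) x
    rw [h1, Fi, Fi, Fi, ← integral_add (ek_int (ind_int hd _ _) x) h2]
    refine integral_congr_ae (Eventually.of_forall fun ξ => ?_)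
    simp only
    ring

/-- local norm of a block -/
lemma block_int (e : En n) (he : ‖e‖ = 1) {s ρ : ℝ} (hs : 0 < s) (hs2 : s ≤ 1 / 2)
    (hρ : 7 * ρ * s ≤ 1) {H : En n → ℂ} (hH : MemLp H 2) (k p q : ℕ) (hpq : p ≤ q) :
    ∫⁻ x in Metric.closedBall (0 : En n) ρ, ‖∑ i ∈ Finset.Ico p q, Fi (pc k i H) x‖ₑ ^ 2 ≤
      ENNReal.ofReal (8 / s ^ 2) *
        ∑ i ∈ Finset.Ico p q, ∫⁻ ζ, ‖av e s (pc k i H) ζ‖ₑ ^ 2 := by
  have hd : MemLp (dya k H) 2 := ind_memLp hH _ _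
  have hdi : Integrable (dya k H) := ind_int hH _ _
  simp_rw [blocksum hH k _ p q hpq]
  refine (loc e he hs hρ (ind_int hd _ _) (ind_memLp hd _ _)).trans ?_
  refine (mul_le_mul_right (orth e he hs2 hdi (2 ^ k + p) (2 ^ k + q)) _).trans ?_
  have h1 : ∑ m ∈ Finset.Ico (2 ^ k + p) (2 ^ k + q),
      ∫⁻ ζ, ‖av e s ((shell n (m : ℝ) ((m + 1 : ℕ) : ℝ)).indicator (dya k H)) ζ‖ₑ ^ 2 =
      ∑ i ∈ Finset.Ico p q, ∫⁻ ζ, ‖av e s (pc k i H) ζ‖ₑ ^ 2 := by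
    rw [add_comm (2 ^ k) p, add_comm (2 ^ k) q, ← Finset.sum_Ico_add']
    refine Finset.sum_congr rfl fun i _ => ?_
    rw [add_comm i (2 ^ k)]
    rfl
  rw [h1, ← mul_assoc]
  generalize ∑ i ∈ Finset.Ico p q, ∫⁻ ζ, ‖av e s (pc k i H) ζ‖ₑ ^ 2 = E
  refine le_of_eq ?_
  rw [show (2 : ℝ≥0∞) = ENNReal.ofReal 2 by simp, ← ENNReal.ofReal_mul (by positivity)]
  congr 2
  ring

/-- the square of the maximal function of the level `k`, by chaining -/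
noncomputable def rm (k : ℕ) (H : En n → ℂ) (x : En n) : ℝ≥0∞ :=
  ((k + 1 : ℕ) : ℝ≥0∞) * ∑ a ∈ Finset.range (k + 1), ∑ j ∈ Finset.range (2 ^ (k + 1 - a)),
    ‖∑ i ∈ Finset.Ico (j * 2 ^ a) ((j + 1) * 2 ^ a), Fi (pc k i H) x‖ₑ ^ 2

lemma rm_meas {H : En n → ℂ} (hH : MemLp H 2) (k : ℕ) : Measurable (rm k H) := by
  have hd : MemLp (dya k H) 2 := ind_memLp hH _ _
  unfold rm
  refine Measurable.const_mul ?_ _
  refine Finset.measurable_fun_sum _ fun a _ => Finset.measurable_fun_sum _ fun j _ => ?_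
  refine Measurable.pow_const ?_ 2
  refine Measurable.enorm ?_
  exact Finset.measurable_fun_sum _ fun i _ => (Fi_cont (ind_int hd _ _)).measurable

theorem rm_int (e : En n) (he : ‖e‖ = 1) {s ρ : ℝ} (hs : 0 < s) (hs2 : s ≤ 1 / 2)
    (hρ : 7 * ρ * s ≤ 1) {H : En n → ℂ} (hH : MemLp H 2) (k : ℕ) :
    ∫⁻ x in Metric.closedBall (0 : En n) ρ, rm k H x ≤
      ((k + 1 : ℕ) : ℝ≥0∞) ^ 2 * (ENNReal.ofReal (8 / s ^ 2) *
        ∑ i ∈ Finset.range (2 ^ (k + 1)), ∫⁻ ζ, ‖av e s (pc k i H) ζ‖ₑ ^ 2) := by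
  have hd : MemLp (dya k H) 2 := ind_memLp hH _ _
  have hm : ∀ p q, Measurable fun x => ‖∑ i ∈ Finset.Ico p q, Fi (pc k i H) x‖ₑ ^ 2 := by
    intro p q
    refine Measurable.pow_const ?_ 2
    refine Measurable.enorm ?_
    exact Finset.measurable_fun_sum _ fun i _ => (Fi_cont (ind_int hd _ _)).measurable
  unfold rm
  rw [lintegral_const_mul' _ _ (by simp), pow_two, mul_assoc]
  refine mul_le_mul_right ?_ _
  rw [lintegral_finsetSum _ (fun a _ => Finset.measurable_fun_sum _ fun j _ => hm _ _)]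
  have h1 : ∀ a ∈ Finset.range (k + 1), ∫⁻ x in Metric.closedBall (0 : En n) ρ,
      ∑ j ∈ Finset.range (2 ^ (k + 1 - a)),
        ‖∑ i ∈ Finset.Ico (j * 2 ^ a) ((j + 1) * 2 ^ a), Fi (pc k i H) x‖ₑ ^ 2 ≤
      ENNReal.ofReal (8 / s ^ 2) *
        ∑ i ∈ Finset.range (2 ^ (k + 1)), ∫⁻ ζ, ‖av e s (pc k i H) ζ‖ₑ ^ 2 := by
    intro a ha
    rw [Finset.mem_range] at ha
    rw [lintegral_finsetSum _ (fun j _ => hm _ _), ← sum_blocks _ (k + 1) a (by omega),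
      Finset.mul_sum]
    exact Finset.sum_le_sum fun j _ => block_int e he hs hs2 hρ hH k _ _
      (Nat.mul_le_mul_right _ (by omega))
  refine (Finset.sum_le_sum h1).trans (le_of_eq ?_)
  rw [Finset.sum_const, Finset.card_range, nsmul_eq_mul]

/-- the partial sums within the level `k` -/
theorem rm_bound {m : ℕ} {H : En (m + 1) → ℂ} (hH : MemLp H 2) (k M : ℕ) (h1 : 2 ^ k ≤ M)
    (h2 : M ≤ 2 ^ (k + 1)) (x : En (m + 1)) :
    ‖ps H M x - ps H ((2 ^ k : ℕ) : ℝ) x‖ₑ ^ 2 ≤ rm k H x := by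
  rw [ps_sub hH (by positivity) (by exact_mod_cast h1) x]
  have h3 : (shell (m + 1) ((2 ^ k : ℕ) : ℝ) (M : ℝ)).indicator H =
      (shell (m + 1) ((2 ^ k + 0 : ℕ) : ℝ) ((2 ^ k + (M - 2 ^ k) : ℕ) : ℝ)).indicator (dya k H) := by
    classical
    funext ξ
    rw [show 2 ^ k + (M - 2 ^ k) = M by omega, add_zero]
    simp only [dya, Set.indicator, mem_shell_iff']
    by_cases h4 : 2 ^ k ≤ ⌊‖ξ‖⌋₊ ∧ ⌊‖ξ‖⌋₊ < M
    · rw [if_pos h4, if_pos h4, if_pos ⟨h4.1, by omega⟩]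
    · rw [if_neg h4, if_neg h4]
  rw [h3, ← blocksum hH k x 0 (M - 2 ^ k) (by omega), ← Finset.range_eq_Ico]
  have h5 : M - 2 ^ k < 2 ^ (k + 1) := by
    have : 0 < 2 ^ k := by positivity
    omega
  exact maximal_enorm (fun i => Fi (pc k i H) x) (k + 1) (M - 2 ^ k) h5

end Pool.Agent.P8H68.DO
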