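import Pool.Agent.P8H68.DO.Block

/-! Convergence and maximal function from the dyadic levels. -/

set_option autoImplicit false

open MeasureTheory Set Filter Topology
open scoped ENNReal RealInnerProductSpace

namespace Pool.Agent.P8H68.DO

open Pool.Agent.Helper93.Sph (En ek Fi shell shell_meas ind_int ek_int Fi_cont ps ps_sub energy
  energy_partition conv_iff ps_cont_x energy_meas energy_bound)

variable {m : ℕ}

/-- weighted sum of the levels `≥ k₁` -/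
noncomputable def NN (k₁ : ℕ) (H : En (m + 1) → ℂ) (x : En (m + 1)) : ℝ≥0∞ :=
  ∑' k : ℕ, ((k + k₁ + 1 : ℕ) : ℝ≥0∞) ^ 2 * rm (k + k₁) H x

lemma NN_meas {H : En (m + 1) → ℂ} (hH : MemLp H 2) (k₁ : ℕ) : Measurable (NN k₁ H) :=
  Measurable.tsum fun _ => (rm_meas hH _).const_mul _

/-- two radii -/
lemma energy_two {H : En (m + 1) → ℂ} (hH : MemLp H 2) (x : En (m + 1)) {a b : ℝ} (ha : 0 ≤ a)
    (hab : a ≤ b) : ‖ps H b x - ps H a x‖ₑ ^ 2 ≤ ENNReal.ofReal (b - a) * energy H x := by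
  rcases hab.eq_or_lt with rfl | hlt
  · simp
  have h := energy_partition hH x (fun i => if i = 0 then a else b) ?_ (by simpa using ha) 1
  · simp only [Finset.range_one, Finset.sum_singleton, zero_add, one_ne_zero, if_false, if_true] at h
    have h0 : ENNReal.ofReal (b - a) ≠ 0 := by simpa using hlt
    rw [ENNReal.div_le_iff h0 ENNReal.ofReal_ne_top] at h
    rwa [mul_comm]
  · refine monotone_nat_of_le_succ fun i => ?_
    rcases Nat.eq_zero_or_pos i with rfl | h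
    · simpa using hab
    · simp [h.ne']

lemma ps_zero {H : En (m + 1) → ℂ} (x : En (m + 1)) : ps H 0 x = 0 := by
  rw [ps, Metric.closedBall_zero]
  exact integral_eq_zero_of_ae (by
    have : (volume : Measure (En (m + 1))).restrict {0} = 0 := by
      rw [Measure.restrict_eq_zero]
      exact measure_singleton _
    rw [this]
    exact ae_zero ▸ Filter.eventually_bot)

section

variable {H : En (m + 1) → ℂ}

/-- real square roots of the levels -/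
noncomputable def rr (k₁ : ℕ) (H : En (m + 1) → ℂ) (x : En (m + 1)) (k : ℕ) : ℝ :=
  Real.sqrt (rm (k + k₁) H x).toReal

lemma rm_lt {k₁ : ℕ} {x : En (m + 1)} (hN : NN k₁ H x < ⊤) (k : ℕ) : rm (k + k₁) H x < ⊤ := by
  have h1 : ((k + k₁ + 1 : ℕ) : ℝ≥0∞) ^ 2 * rm (k + k₁) H x ≤ NN k₁ H x :=
    ENNReal.le_tsum (f := fun k : ℕ => ((k + k₁ + 1 : ℕ) : ℝ≥0∞) ^ 2 * rm (k + k₁) H x) k
  have h2 : rm (k + k₁) H x ≤ ((k + k₁ + 1 : ℕ) : ℝ≥0∞) ^ 2 * rm (k + k₁) H x := by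
    refine le_mul_of_one_le_left' ?_
    refine one_le_pow₀ ?_
    exact_mod_cast Nat.succ_le_succ (Nat.zero_le _)
  exact (h2.trans h1).trans_lt hN

lemma rr_sq {k₁ : ℕ} {x : En (m + 1)} (k : ℕ) : rr k₁ H x k ^ 2 = (rm (k + k₁) H x).toReal :=
  Real.sq_sqrt ENNReal.toReal_nonneg

lemma rr_sum_sq {k₁ : ℕ} {x : En (m + 1)} (hN : NN k₁ H x < ⊤) (K : ℕ) :
    ∑ k ∈ Finset.range K, ((k : ℝ) + k₁ + 1) ^ 2 * rr k₁ H x k ^ 2 ≤ (NN k₁ H x).toReal := by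
  have h1 : ∑ k ∈ Finset.range K, ((k + k₁ + 1 : ℕ) : ℝ≥0∞) ^ 2 * rm (k + k₁) H x ≤ NN k₁ H x :=
    ENNReal.sum_le_tsum _
  have h2 := ENNReal.toReal_mono hN.ne h1
  rw [ENNReal.toReal_sum (fun k _ => (ENNReal.mul_lt_top (by simp) (rm_lt hN k)).ne)] at h2
  refine le_trans (le_of_eq ?_) h2
  refine Finset.sum_congr rfl fun k _ => ?_
  rw [rr_sq, ENNReal.toReal_mul, ENNReal.toReal_pow, ENNReal.toReal_natCast]
  push_cast
  ring

lemma sum_inv_sq (k₁ K : ℕ) : ∑ k ∈ Finset.range K, (1 / ((k : ℝ) + k₁ + 1)) ^ 2 ≤ 2 := by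
  have h1 : ∀ K : ℕ, ∑ k ∈ Finset.range K, (1 / ((k : ℝ) + 1)) ^ 2 ≤ 2 - 2 / ((K : ℝ) + 1) := by
    intro K
    induction K with
    | zero => simp
    | succ K ih =>
      rw [Finset.sum_range_succ]
      refine (add_le_add ih le_rfl).trans ?_
      push_cast
      have h2 : (0 : ℝ) < (K : ℝ) + 1 := by positivity
      have h3 : (0 : ℝ) < (K : ℝ) + 1 + 1 := by positivity
      rw [← sub_nonneg]
      have h4 : 2 - 2 / ((K : ℝ) + 1 + 1) - (2 - 2 / ((K : ℝ) + 1) + (1 / ((K : ℝ) + 1)) ^ 2) =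
          (K : ℝ) / (((K : ℝ) + 1) ^ 2 * ((K : ℝ) + 1 + 1)) := by
        field_simp
        ring
      rw [h4]
      positivity
  refine (Finset.sum_le_sum fun k _ => ?_).trans ((h1 K).trans ?_)
  · refine pow_le_pow_left₀ (by positivity) ?_ 2
    refine one_div_le_one_div_of_le (by positivity) ?_
    have : (0 : ℝ) ≤ k₁ := Nat.cast_nonneg _
    linarith
  · have : (0 : ℝ) ≤ 2 / ((K : ℝ) + 1) := by positivity
    linarith

lemma rr_sum {k₁ : ℕ} {x : En (m + 1)} (hN : NN k₁ H x < ⊤) (K : ℕ) :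
    (∑ k ∈ Finset.range K, rr k₁ H x k) ^ 2 ≤ 2 * (NN k₁ H x).toReal := by
  have h1 := Finset.sum_mul_sq_le_sq_mul_sq (Finset.range K)
    (fun k => 1 / ((k : ℝ) + k₁ + 1)) (fun k => ((k : ℝ) + k₁ + 1) * rr k₁ H x k)
  have h2 : ∀ k : ℕ, 1 / ((k : ℝ) + k₁ + 1) * (((k : ℝ) + k₁ + 1) * rr k₁ H x k) = rr k₁ H x k := by
    intro k
    have : (0 : ℝ) < (k : ℝ) + k₁ + 1 := by positivity
    field_simp
  simp_rw [h2] at h1
  refine h1.trans ?_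
  refine mul_le_mul (sum_inv_sq k₁ K) ?_ (Finset.sum_nonneg fun k _ => by positivity) (by norm_num)
  simp_rw [mul_pow]
  exact rr_sum_sq hN K

lemma rr_nonneg {k₁ : ℕ} {x : En (m + 1)} (k : ℕ) : 0 ≤ rr k₁ H x k := Real.sqrt_nonneg _

lemma rr_summable {k₁ : ℕ} {x : En (m + 1)} (hN : NN k₁ H x < ⊤) : Summable (rr k₁ H x) := by
  refine summable_of_sum_range_le (c := Real.sqrt (2 * (NN k₁ H x).toReal)) (fun k => rr_nonneg k)
    fun K => ?_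
  exact Real.le_sqrt_of_sq_le (rr_sum hN K)

/-- partial sums in a level -/
lemma level_step (hH : MemLp H 2) {k₁ : ℕ} {x : En (m + 1)} (hN : NN k₁ H x < ⊤) (k M : ℕ)
    (h1 : 2 ^ (k + k₁) ≤ M) (h2 : M ≤ 2 ^ (k + k₁ + 1)) :
    ‖ps H M x - ps H ((2 ^ (k + k₁) : ℕ) : ℝ) x‖ ≤ rr k₁ H x k := by
  have h3 := rm_bound hH (k + k₁) M h1 h2 x
  rw [enorm_sq_eq] at h3
  have h4 := ENNReal.toReal_mono (rm_lt hN k).ne h3
  rw [ENNReal.toReal_ofReal (by positivity)] at h4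
  exact Real.le_sqrt_of_sq_le h4

/-- all integral radii -/
lemma int_bound (hH : MemLp H 2) {k₁ : ℕ} {x : En (m + 1)} (hN : NN k₁ H x < ⊤) :
    ∀ j : ℕ, 2 ^ k₁ ≤ j → ‖ps H j x - ps H ((2 ^ k₁ : ℕ) : ℝ) x‖ ^ 2 ≤ 2 * (NN k₁ H x).toReal := by
  have h0 : ∀ K : ℕ, ‖ps H ((2 ^ (K + k₁) : ℕ) : ℝ) x - ps H ((2 ^ k₁ : ℕ) : ℝ) x‖ ≤
      ∑ k ∈ Finset.range K, rr k₁ H x k := by
    intro K
    induction K with
    | zero => simp
    | succ K ih =>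
      rw [Finset.sum_range_succ]
      have h1 := level_step hH hN K (2 ^ (K + k₁ + 1)) (by
        exact Nat.pow_le_pow_right (by norm_num) (by omega)) le_rfl
      rw [show K + 1 + k₁ = K + k₁ + 1 by ring]
      calc ‖ps H ((2 ^ (K + k₁ + 1) : ℕ) : ℝ) x - ps H ((2 ^ k₁ : ℕ) : ℝ) x‖
          ≤ ‖ps H ((2 ^ (K + k₁ + 1) : ℕ) : ℝ) x - ps H ((2 ^ (K + k₁) : ℕ) : ℝ) x‖ +
            ‖ps H ((2 ^ (K + k₁) : ℕ) : ℝ) x - ps H ((2 ^ k₁ : ℕ) : ℝ) x‖ := norm_sub_le_norm_sub_add_norm_sub _ _ _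
        _ ≤ _ := by rw [add_comm]; exact add_le_add ih h1
  intro j hj
  set l := Nat.log 2 j with hl
  have hj0 : j ≠ 0 := by
    have : 0 < 2 ^ k₁ := by positivity
    omega
  have h1 : 2 ^ l ≤ j := Nat.pow_log_le_self 2 hj0
  have h2 : j < 2 ^ (l + 1) := Nat.lt_pow_succ_log_self (by norm_num) j
  have h3 : k₁ ≤ l := by
    by_contra h
    push Not at h
    have : 2 ^ (l + 1) ≤ 2 ^ k₁ := Nat.pow_le_pow_right (by norm_num) h
    omega
  obtain ⟨K, hK⟩ : ∃ K, l = K + k₁ := ⟨l - k₁, by omega⟩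
  rw [hK] at h1 h2
  have h4 := level_step hH hN K j h1 h2.le
  have h5 : ‖ps H j x - ps H ((2 ^ k₁ : ℕ) : ℝ) x‖ ≤ ∑ k ∈ Finset.range (K + 1), rr k₁ H x k := by
    rw [Finset.sum_range_succ]
    calc ‖ps H j x - ps H ((2 ^ k₁ : ℕ) : ℝ) x‖
        ≤ ‖ps H j x - ps H ((2 ^ (K + k₁) : ℕ) : ℝ) x‖ +
          ‖ps H ((2 ^ (K + k₁) : ℕ) : ℝ) x - ps H ((2 ^ k₁ : ℕ) : ℝ) x‖ := norm_sub_le_norm_sub_add_norm_sub _ _ _
      _ ≤ _ := by rw [add_comm]; exact add_le_add (h0 K) h4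
  exact (pow_le_pow_left₀ (norm_nonneg _) h5 2).trans (rr_sum hN _)

/-- **the maximal function** -/
theorem sup_bound (hH : MemLp H 2) (k₁ : ℕ) (x : En (m + 1)) (R : ℝ) :
    ‖ps H R x‖ₑ ^ 2 ≤ 6 * (2 ^ k₁ : ℕ) * energy H x + 8 * NN k₁ H x := by
  have hp1 : (1 : ℝ≥0∞) ≤ ((2 ^ k₁ : ℕ) : ℝ≥0∞) := by
    exact_mod_cast Nat.one_le_two_pow
  rcases lt_or_ge R 0 with hR | hR
  · rw [ps, Metric.closedBall_eq_empty.2 hR]
    simp
  -- small radii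
  have hsmall : ∀ r : ℝ, 0 ≤ r → r ≤ (2 ^ k₁ : ℕ) → ‖ps H r x‖ₑ ^ 2 ≤ (2 ^ k₁ : ℕ) * energy H x := by
    intro r h0 h1
    have h2 := energy_two hH x le_rfl h0
    rw [ps_zero, sub_zero, sub_zero] at h2
    refine h2.trans (mul_le_mul_left ?_ _)
    rw [← ENNReal.ofReal_natCast]
    exact ENNReal.ofReal_le_ofReal h1
  rcases le_or_gt R (2 ^ k₁ : ℕ) with hR1 | hR1
  · refine (hsmall R hR hR1).trans (le_add_right ?_)
    rw [mul_assoc]
    exact le_mul_of_one_le_left' (by norm_num)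
  rcases eq_or_ne (NN k₁ H x) ⊤ with htop | htop
  · rw [htop]
    simp
  have hN : NN k₁ H x < ⊤ := lt_top_iff_ne_top.2 htop
  set j := ⌊R⌋₊ with hj
  have hjR : (j : ℝ) ≤ R := Nat.floor_le hR
  have hjR' : R < j + 1 := Nat.lt_floor_add_one R
  have hj1 : 2 ^ k₁ ≤ j := Nat.le_floor hR1.le
  have e1 : ‖ps H R x - ps H j x‖ₑ ^ 2 ≤ energy H x := by
    refine (energy_two hH x (by positivity) hjR).trans ?_
    refine mul_le_of_le_one_left' ?_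
    rw [← ENNReal.ofReal_one]
    exact ENNReal.ofReal_le_ofReal (by linarith)
  have e2 : ‖ps H j x - ps H ((2 ^ k₁ : ℕ) : ℝ) x‖ₑ ^ 2 ≤ 2 * NN k₁ H x := by
    rw [enorm_sq_eq]
    refine (ENNReal.ofReal_le_ofReal (int_bound hH hN j hj1)).trans ?_
    rw [ENNReal.ofReal_mul (by norm_num), ENNReal.ofReal_toReal htop]
    simp
  have e3 := hsmall ((2 ^ k₁ : ℕ) : ℝ) (by positivity) le_rfl
  have h5 : ps H R x = (ps H R x - ps H j x) + ((ps H j x - ps H ((2 ^ k₁ : ℕ) : ℝ) x) +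
      ps H ((2 ^ k₁ : ℕ) : ℝ) x) := by ring
  calc ‖ps H R x‖ₑ ^ 2 = ‖(ps H R x - ps H j x) + ((ps H j x - ps H ((2 ^ k₁ : ℕ) : ℝ) x) +
      ps H ((2 ^ k₁ : ℕ) : ℝ) x)‖ₑ ^ 2 := by rw [← h5]
    _ ≤ (‖ps H R x - ps H j x‖ₑ + ‖(ps H j x - ps H ((2 ^ k₁ : ℕ) : ℝ) x) +
      ps H ((2 ^ k₁ : ℕ) : ℝ) x‖ₑ) ^ 2 := pow_le_pow_left' (enorm_add_le _ _) 2
    _ ≤ 2 * ‖ps H R x - ps H j x‖ₑ ^ 2 + 2 * ‖(ps H j x - ps H ((2 ^ k₁ : ℕ) : ℝ) x) +
      ps H ((2 ^ k₁ : ℕ) : ℝ) x‖ₑ ^ 2 := enn_add_sq _ _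
    _ ≤ 2 * energy H x + 2 * (2 * ‖ps H j x - ps H ((2 ^ k₁ : ℕ) : ℝ) x‖ₑ ^ 2 +
      2 * ‖ps H ((2 ^ k₁ : ℕ) : ℝ) x‖ₑ ^ 2) := by
        gcongr
        exact (pow_le_pow_left' (enorm_add_le _ _) 2).trans (enn_add_sq _ _)
    _ ≤ 2 * energy H x + 2 * (2 * (2 * NN k₁ H x) + 2 * ((2 ^ k₁ : ℕ) * energy H x)) := by
        gcongr
    _ ≤ 2 * ((2 ^ k₁ : ℕ) * energy H x) + 2 * (2 * (2 * NN k₁ H x) + 2 * ((2 ^ k₁ : ℕ) * energy H x)) := by
        gcongr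
        exact le_mul_of_one_le_left' hp1
    _ = _ := by ring

/-- **convergence** -/
theorem conv (hH : MemLp H 2) {k₁ : ℕ} {x : En (m + 1)} (hN : NN k₁ H x < ⊤)
    (hE : energy H x < ⊤) : ∃ L : ℂ, Tendsto (fun R : ℝ => ps H R x) atTop (𝓝 L) := by
  have hs := rr_summable hN
  have hc : CauchySeq fun k : ℕ => ps H ((2 ^ (k + k₁) : ℕ) : ℝ) x := by
    refine cauchySeq_of_dist_le_of_summable (rr k₁ H x) (fun k => ?_) hs
    have h1 := level_step hH hN k (2 ^ (k + k₁ + 1)) (by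
        exact Nat.pow_le_pow_right (by norm_num) (by omega)) le_rfl
    rw [dist_comm, dist_eq_norm, show k.succ + k₁ = k + k₁ + 1 by omega]
    exact h1
  obtain ⟨L, hL⟩ := cauchySeq_tendsto_of_complete hc
  refine ⟨L, (conv_iff hH hE one_pos L).2 ?_⟩
  simp only [one_mul]
  have hlog : Tendsto (fun j : ℕ => Nat.log 2 j - k₁) atTop atTop := by
    refine tendsto_atTop.2 fun b => ?_
    filter_upwards [eventually_ge_atTop (2 ^ (b + k₁))] with j hj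
    have : b + k₁ ≤ Nat.log 2 j := by
      have h0 : j ≠ 0 := by
        have : 0 < 2 ^ (b + k₁) := by positivity
        omega
      exact (Nat.le_log_iff_pow_le (by norm_num) h0).2 hj
    omega
  have h1 : Tendsto (fun j : ℕ => ps H ((2 ^ ((Nat.log 2 j - k₁) + k₁) : ℕ) : ℝ) x) atTop (𝓝 L) :=
    hL.comp hlog
  have h2 : Tendsto (fun j : ℕ => rr k₁ H x (Nat.log 2 j - k₁)) atTop (𝓝 0) :=
    hs.tendsto_atTop_zero.comp hlog
  have h3 : Tendsto (fun j : ℕ => ps H j x - ps H ((2 ^ ((Nat.log 2 j - k₁) + k₁) : ℕ) : ℝ) x)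
      atTop (𝓝 0) := by
    refine squeeze_zero_norm' ?_ h2
    filter_upwards [eventually_ge_atTop (2 ^ k₁)] with j hj
    have h0 : j ≠ 0 := by
      have : 0 < 2 ^ k₁ := by positivity
      omega
    have h4 : k₁ ≤ Nat.log 2 j := (Nat.le_log_iff_pow_le (by norm_num) h0).2 hj
    refine level_step hH hN (Nat.log 2 j - k₁) j ?_ ?_
    · rw [Nat.sub_add_cancel h4]
      exact Nat.pow_log_le_self 2 h0
    · rw [Nat.sub_add_cancel h4]
      exact (Nat.lt_pow_succ_log_self (by norm_num) j).le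
  have h5 := h3.add h1
  simp only [sub_add_cancel, zero_add] at h5
  exact h5

end

end Pool.Agent.P8H68.DO
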