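import Mathlib

/-! Upper limits of few short intervals have Hausdorff dimension zero. -/

set_option autoImplicit false

open MeasureTheory MeasureTheory.Measure Set Filter Topology
open scoped ENNReal NNReal

namespace Pool.Agent.P8H68.DO

theorem haus (bad : ℕ → Finset ℝ) (h : ℕ → ℝ) (k₀ : ℕ) (K A g : ℝ) (p : ℕ) (hg : 0 < g)
    (hK : 0 ≤ K) (hA : 0 ≤ A) (hcard : ∀ k ≥ k₀, ((bad k).card : ℝ) ≤ K * ((k : ℝ) + 1) ^ p)
    (hh : ∀ k ≥ k₀, 0 ≤ h k ∧ h k ≤ A * (2 : ℝ) ^ (-(g * k))) :
    dimH {t : ℝ | ∃ᶠ k in atTop, ∃ a ∈ bad k, t ∈ Icc a (a + h k)} = 0 := by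
  set E := {t : ℝ | ∃ᶠ k in atTop, ∃ a ∈ bad k, t ∈ Icc a (a + h k)} with hE
  have key : ∀ d : ℝ≥0, 0 < d → μH[(d : ℝ)] E = 0 := by
    intro d hd
    have hd' : (0 : ℝ) < d := hd
    set r0 : ℝ := (2 : ℝ) ^ (-(g * d)) with hr0
    have hr0pos : 0 < r0 := by positivity
    have hr01 : r0 < 1 := by
      rw [hr0]
      exact Real.rpow_lt_one_of_one_lt_of_neg (by norm_num) (by nlinarith)
    set f : ℕ → ℝ := fun k => K * ((k : ℝ) + 1) ^ p * (A ^ (d : ℝ) * r0 ^ k) with hf
    have hf0 : ∀ k, 0 ≤ f k := fun k => by positivity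
    have hsum : Summable f := by
      have h1 : Summable fun k : ℕ => ((k : ℝ)) ^ p * r0 ^ k :=
        summable_pow_mul_geometric_of_norm_lt_one p (by rw [Real.norm_of_nonneg hr0pos.le]; exact hr01)
      have h2 := (summable_nat_add_iff 1).2 h1
      have h3 : f = fun k : ℕ => (K * A ^ (d : ℝ) * r0⁻¹) * (((k + 1 : ℕ) : ℝ) ^ p * r0 ^ (k + 1)) := by
        funext k
        simp only [hf]
        push_cast
        field_simp
        ring
      rw [h3]
      exact h2.mul_left _
    have htail : Tendsto (fun N => ENNReal.ofReal (∑' k, f (k + N))) atTop (𝓝 0) := by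
      have h1 := tendsto_sum_nat_add f
      have h2 := ENNReal.tendsto_ofReal h1
      simpa using h2
    have hle := hausdorffMeasure_le_liminf_tsum (X := ℝ) (β := ℕ)
      (ι := fun N => Σ k : ℕ, {a : ℝ // a ∈ bad (N + k)}) (d : ℝ) E (l := atTop)
      (fun N => ENNReal.ofReal (A * (2 : ℝ) ^ (-(g * N)))) ?_
      (fun N i => Icc (i.2 : ℝ) ((i.2 : ℝ) + h (N + i.1))) ?_ ?_
    · refine le_antisymm (hle.trans ?_) zero_le
      have hb : ∀ᶠ N in atTop, ∑' i : (Σ k : ℕ, {a : ℝ // a ∈ bad (N + k)}),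
          Metric.ediam (Icc (i.2 : ℝ) ((i.2 : ℝ) + h (N + i.1))) ^ (d : ℝ) ≤
          ENNReal.ofReal (∑' k, f (k + N)) := by
        filter_upwards [eventually_ge_atTop k₀] with N hN
        rw [ENNReal.tsum_sigma', ENNReal.ofReal_tsum_of_nonneg (fun k => hf0 _)
          ((summable_nat_add_iff N).2 hsum)]
        refine ENNReal.tsum_le_tsum fun k => ?_
        obtain ⟨h1, h2⟩ := hh (N + k) (by omega)
        have h3 := hcard (N + k) (by omega)
        rw [tsum_fintype]
        simp only [Real.ediam_Icc, add_sub_cancel_left]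
        rw [Finset.sum_const, Finset.card_univ, Fintype.card_coe, nsmul_eq_mul,
          ENNReal.ofReal_rpow_of_nonneg h1 hd'.le, ← ENNReal.ofReal_natCast,
          ← ENNReal.ofReal_mul (by positivity)]
        refine ENNReal.ofReal_le_ofReal ?_
        simp only [hf]
        rw [add_comm k N]
        refine mul_le_mul h3 ?_ (by positivity) (by positivity)
        calc h (N + k) ^ (d : ℝ) ≤ (A * (2 : ℝ) ^ (-(g * (N + k : ℕ)))) ^ (d : ℝ) :=
              Real.rpow_le_rpow h1 h2 hd'.le
          _ = A ^ (d : ℝ) * r0 ^ (N + k) := by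
              rw [Real.mul_rpow hA (by positivity), hr0, ← Real.rpow_mul (by norm_num),
                ← Real.rpow_natCast, ← Real.rpow_mul (by norm_num)]
              congr 2
              ring
      refine (liminf_le_liminf hb).trans ?_
      rw [htail.liminf_eq]
    · have h1 : Tendsto (fun N : ℕ => A * (2 : ℝ) ^ (-(g * N))) atTop (𝓝 (A * 0)) := by
        refine Tendsto.const_mul A ?_
        have h2 : ∀ N : ℕ, (2 : ℝ) ^ (-(g * N)) = ((2 : ℝ) ^ (-g)) ^ N := by
          intro N
          rw [← Real.rpow_natCast, ← Real.rpow_mul (by norm_num)]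
          congr 1
          ring
        simp_rw [h2]
        exact tendsto_pow_atTop_nhds_zero_of_lt_one (by positivity)
          (Real.rpow_lt_one_of_one_lt_of_neg (by norm_num) (by linarith))
      have h3 := ENNReal.tendsto_ofReal h1
      simpa using h3
    · filter_upwards [eventually_ge_atTop k₀] with N hN i
      rw [Real.ediam_Icc, add_sub_cancel_left]
      refine ENNReal.ofReal_le_ofReal ((hh (N + i.1) (by omega)).2.trans ?_)
      refine mul_le_mul_of_nonneg_left ?_ hA
      refine Real.rpow_le_rpow_of_exponent_le (by norm_num) ?_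
      have : (N : ℝ) ≤ ((N + i.1 : ℕ) : ℝ) := by exact_mod_cast Nat.le_add_right _ _
      nlinarith
    · refine Eventually.of_forall fun N t ht => ?_
      rw [hE, mem_ofPred_eq, frequently_atTop] at ht
      obtain ⟨k, hk, a, ha, hta⟩ := ht N
      obtain ⟨j, rfl⟩ : ∃ j, k = N + j := ⟨k - N, by omega⟩
      exact mem_iUnion.2 ⟨⟨j, ⟨a, ha⟩⟩, hta⟩
  refine le_antisymm ?_ zero_le
  refine ENNReal.le_of_forall_pos_le_add fun ε hε _ => ?_
  rw [zero_add]
  exact dimH_le_of_hausdorffMeasure_ne_top (by rw [key ε hε]; exact ENNReal.zero_ne_top)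

end Pool.Agent.P8H68.DO
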