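import Pool.Agent.P8H68.DO.Conv
import Pool.Agent.P8H68.DO.Haus

/-! Good times outside a set of Hausdorff dimension zero: one direction. -/

set_option autoImplicit false

open MeasureTheory Set Filter Topology
open scoped ENNReal NNReal RealInnerProductSpace

namespace Pool.Agent.P8H68.DO

open Pool.Agent.Helper93.Sph (En ek Fi shell shell_meas ind_int ek_int Fi_cont ps ps_sub energy
  energy_partition conv_iff ps_cont_x energy_meas energy_bound)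

variable {m : ℕ}

lemma evo_memLp {n : ℕ} {Φ : En n → ℝ} (hΦ : Measurable Φ) (t : ℝ) {G : En n → ℂ}
    (hG : MemLp G 2) : MemLp (evo Φ t G) 2 := by
  refine (memLp_congr_norm ?_ hG.aestronglyMeasurable ?_).2 hG
  · exact (Complex.measurable_exp.comp ((Complex.measurable_ofReal.comp
      (hΦ.const_mul t)).mul_const Complex.I)).aestronglyMeasurable.mul hG.aestronglyMeasurable
  · exact Eventually.of_forall fun ξ => evo_norm Φ t G ξ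

lemma pc_evo {n : ℕ} (Φ : En n → ℝ) (t : ℝ) (G : En n → ℂ) (k i : ℕ) :
    pc k i (evo Φ t G) = evo Φ t (pc k i G) := by
  rw [pc, dya, pc, dya, evo_ind, evo_ind]

lemma sq_int_lt {n : ℕ} {G : En n → ℂ} (hG : MemLp G 2) : ∫⁻ ξ, ‖G ξ‖ₑ ^ 2 < ⊤ := by
  have := hG.eLpNorm_lt_top
  rw [eLpNorm_lt_top_iff_lintegral_rpow_enorm_lt_top (by norm_num) (by norm_num)] at this
  simpa using this

/-- good levels give a finite weighted sum -/
theorem NN_int (e : En (m + 1)) (he : ‖e‖ = 1) {s ρ : ℝ} (hs : 0 < s) (hs2 : s ≤ 1 / 2)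
    (hρ : 7 * ρ * s ≤ 1) {H : En (m + 1) → ℂ} (hH : MemLp H 2) (k₁ : ℕ)
    (hgood : ∀ k ≥ k₁, ∑ i ∈ Finset.range (2 ^ (k + 1)), ∫⁻ ζ, ‖av e s (pc k i H) ζ‖ₑ ^ 2 ≤
      ENNReal.ofReal (1 / ((k : ℝ) + 1) ^ 6)) :
    ∫⁻ x in Metric.closedBall (0 : En (m + 1)) ρ, NN k₁ H x < ⊤ := by
  unfold NN
  rw [lintegral_tsum (fun k => ((rm_meas hH _).const_mul _).aemeasurable)]
  have h1 : ∀ k : ℕ, ∫⁻ x in Metric.closedBall (0 : En (m + 1)) ρ,
      ((k + k₁ + 1 : ℕ) : ℝ≥0∞) ^ 2 * rm (k + k₁) H x ≤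
      ENNReal.ofReal (8 / s ^ 2 * (1 / ((k : ℝ) + 1) ^ 2)) := by
    intro k
    rw [lintegral_const_mul' _ _ (by simp)]
    have h2 := rm_int e he hs hs2 hρ hH (k + k₁)
    have h3 := hgood (k + k₁) (by omega)
    refine (mul_le_mul_right (h2.trans (mul_le_mul_right (mul_le_mul_right h3 _) _)) _).trans ?_
    rw [← ENNReal.ofReal_mul (by positivity), ← ENNReal.ofReal_natCast,
      ← ENNReal.ofReal_pow (by positivity), ← ENNReal.ofReal_mul (by positivity),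
      ← ENNReal.ofReal_mul (by positivity)]
    refine ENNReal.ofReal_le_ofReal ?_
    push_cast
    have h4 : (0 : ℝ) < (k : ℝ) + k₁ + 1 := by positivity
    have h5 : ((k : ℝ) + k₁ + 1) ^ 2 * (((k : ℝ) + k₁ + 1) ^ 2 *
        (8 / s ^ 2 * (1 / ((k : ℝ) + k₁ + 1) ^ 6))) = 8 / s ^ 2 * (1 / ((k : ℝ) + k₁ + 1) ^ 2) := by
      field_simp
    rw [h5]
    refine mul_le_mul_of_nonneg_left ?_ (by positivity)
    refine one_div_le_one_div_of_le (by positivity) ?_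
    refine pow_le_pow_left₀ (by positivity) ?_ 2
    have : (0 : ℝ) ≤ k₁ := Nat.cast_nonneg _
    linarith
  refine (ENNReal.tsum_le_tsum h1).trans_lt ?_
  have hsum : Summable fun k : ℕ => 8 / s ^ 2 * (1 / ((k : ℝ) + 1) ^ 2) := by
    refine Summable.mul_left _ ?_
    have := (summable_nat_add_iff 1).2 (Real.summable_one_div_nat_pow.2 (by norm_num : 1 < 2))
    refine this.congr fun k => ?_
    push_cast
    rfl
  rw [← ENNReal.ofReal_tsum_of_nonneg (fun k => by positivity) hsum]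
  exact ENNReal.ofReal_lt_top

/-- **one direction** -/
theorem core (e : En (m + 1)) (he : ‖e‖ = 1) {Φ : En (m + 1) → ℝ} (hΦ : Measurable Φ)
    {G : En (m + 1) → ℂ} (hGm : Measurable G) (hG : MemLp G 2) {g c C s₀ : ℝ} (hg : 0 < g)
    (hc : 0 < c) (hC : 1 ≤ C) (hs₀ : 0 < s₀) (k₀ : ℕ)
    (hexp : ∀ k ≥ k₀, ∀ s : ℝ, 0 < s → s ≤ s₀ → s ≤ 1 →
      Expands e s Φ (c * (2 : ℝ) ^ (g * k)) (C * (2 : ℝ) ^ (g * k)) (dya k G)) :
    ∃ B : Set ℝ, dimH B = 0 ∧ ∀ t ∉ B, ∀ ρ : ℕ, ∃ k₁ : ℕ,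
      ∫⁻ x in Metric.closedBall (0 : En (m + 1)) ρ, NN k₁ (evo Φ t G) x < ⊤ := by
  classical
  have hE : ∫⁻ ξ, ‖G ξ‖ₑ ^ 2 ≠ ⊤ := (sq_int_lt hG).ne
  set E := (∫⁻ ξ, ‖G ξ‖ₑ ^ 2).toReal with hEdef
  have hE0 : 0 ≤ E := ENNReal.toReal_nonneg
  set S : ℕ → ℝ := fun ρ => min s₀ (1 / (7 * ((ρ : ℝ) + 1))) with hS
  have hSpos : ∀ ρ, 0 < S ρ := fun ρ => lt_min hs₀ (by positivity)
  have hS0 : ∀ ρ, S ρ ≤ s₀ := fun ρ => min_le_left _ _
  have hS1 : ∀ ρ, S ρ ≤ 1 / (7 * ((ρ : ℝ) + 1)) := fun ρ => min_le_right _ _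
  have hS2 : ∀ ρ, S ρ ≤ 1 / 7 := fun ρ => (hS1 ρ).trans (by
    refine one_div_le_one_div_of_le (by norm_num) ?_
    have : (0 : ℝ) ≤ ρ := Nat.cast_nonneg _
    linarith)
  have hSρ : ∀ ρ : ℕ, 7 * (ρ : ℝ) * S ρ ≤ 1 := by
    intro ρ
    have h0 : (0 : ℝ) ≤ ρ := Nat.cast_nonneg _
    calc 7 * (ρ : ℝ) * S ρ ≤ 7 * (ρ : ℝ) * (1 / (7 * ((ρ : ℝ) + 1))) :=
          mul_le_mul_of_nonneg_left (hS1 ρ) (by positivity)
      _ = ρ / ((ρ : ℝ) + 1) := by field_simp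
      _ ≤ 1 := by rw [div_le_one (by positivity)]; linarith
  have hpow : ∀ k : ℕ, 1 ≤ (2 : ℝ) ^ (g * k) := fun k =>
    Real.one_le_rpow (by norm_num) (by positivity)
  -- bad windows
  have hlev : ∀ (ρ T k : ℕ), ∃ bad : Finset ℝ, (k₀ ≤ k →
      (bad.card : ℝ) ≤ (72 * C / c * E) * ((k : ℝ) + 1) ^ 6 ∧
      ∀ t ∈ Icc (-((T : ℝ) + 1)) ((T : ℝ) + 1),
        (∀ a ∈ bad, t ∉ Icc a (a + 1 / (C * (2 : ℝ) ^ (g * k)))) →
        ∑ i ∈ Finset.range (2 ^ (k + 1)), ∫⁻ ζ, ‖av e (S ρ) (evo Φ t (pc k i G)) ζ‖ₑ ^ 2 ≤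
          ENNReal.ofReal (1 / ((k : ℝ) + 1) ^ 6)) := by
    intro ρ T k
    by_cases hk : k₀ ≤ k
    · have hL1 : 1 ≤ C * (2 : ℝ) ^ (g * k) := by nlinarith [hpow k]
      obtain ⟨bad, h1, h2⟩ := level (hSpos ρ) hΦ hGm hE (lam := c * (2 : ℝ) ^ (g * k)) (by positivity)
        hL1 k (hexp k hk (S ρ) (hSpos ρ) (hS0 ρ) ((hS2 ρ).trans (by norm_num)))
        (T := (T : ℝ) + 1) (by positivity) (thr := 1 / ((k : ℝ) + 1) ^ 6) (by positivity)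
      refine ⟨bad, fun _ => ⟨h1.trans ?_, h2⟩⟩
      have h3 : (0 : ℝ) < (2 : ℝ) ^ (g * k) := by positivity
      have h4 : 72 * (C * (2 : ℝ) ^ (g * k)) / (c * (2 : ℝ) ^ (g * k)) * S ρ * E /
          (1 / ((k : ℝ) + 1) ^ 6) = (72 * C / c * E) * ((k : ℝ) + 1) ^ 6 * S ρ := by
        field_simp
      rw [h4]
      refine mul_le_of_le_one_right (by positivity) ((hS2 ρ).trans (by norm_num))
    · exact ⟨∅, fun h => absurd h hk⟩
  choose bad hbad using hlev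
  set B : ℕ × ℕ → Set ℝ := fun p => {t : ℝ | ∃ᶠ k in atTop, ∃ a ∈ bad p.1 p.2 k,
    t ∈ Icc a (a + 1 / (C * (2 : ℝ) ^ (g * k)))} with hB
  refine ⟨⋃ p, B p, ?_, ?_⟩
  · rw [dimH_iUnion, ENNReal.iSup_eq_zero]
    intro p
    refine haus (bad p.1 p.2) (fun k => 1 / (C * (2 : ℝ) ^ (g * k))) k₀ (72 * C / c * E) (1 / C) g 6
      hg (by positivity) (by positivity) (fun k hk => (hbad p.1 p.2 k hk).1) (fun k _ => ⟨by positivity, ?_⟩)
    rw [Real.rpow_neg (by norm_num), one_div, mul_inv, one_div]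
  · intro t ht ρ
    obtain ⟨T, hT⟩ := exists_nat_ge |t|
    have htT : t ∈ Icc (-((T : ℝ) + 1)) ((T : ℝ) + 1) := by
      have h9 := abs_le.1 hT
      exact ⟨by linarith [h9.1], by linarith [h9.2]⟩
    have hn : t ∉ B (ρ, T) := fun h => ht (mem_iUnion.2 ⟨(ρ, T), h⟩)
    rw [hB, mem_ofPred_eq, not_frequently] at hn
    obtain ⟨k₂, hk₂⟩ := eventually_atTop.1 hn
    refine ⟨max k₀ k₂, NN_int e he (hSpos ρ) ((hS2 ρ).trans (by norm_num)) (hSρ ρ)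
      (evo_memLp hΦ t hG) _ fun k hk => ?_⟩
    simp_rw [pc_evo]
    refine (hbad ρ T k ((le_max_left _ _).trans hk)).2 t htT fun a ha h => ?_
    exact hk₂ k ((le_max_right _ _).trans hk) ⟨a, ha, h⟩

end Pool.Agent.P8H68.DO
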