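import Pool.Agent.P8H68.DO.Good

/-! Dispersive phases expand in some coordinate direction. -/

set_option autoImplicit false

open MeasureTheory Set Filter Topology
open scoped ENNReal RealInnerProductSpace

namespace Pool.Agent.P8H68.DO

open Pool.Agent.Helper93.Sph (En ek Fi shell shell_meas ps energy energy_meas energy_bound
  energy_fin energy_partition ek_int)

section

variable {n : ℕ} {Φ : En n → ℝ} {γ c C r δ N : ℝ}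

lemma taylor (hdiff : ∀ ξ : En n, r ≤ ‖ξ‖ → DifferentiableAt ℝ Φ ξ)
    (hslow : ∀ ξ η : En n, r ≤ ‖ξ‖ → ‖ξ - η‖ ≤ δ →
      ‖fderiv ℝ Φ ξ - fderiv ℝ Φ η‖ ≤ (c / (2 * N)) * ‖ξ‖ ^ γ)
    {e : En n} (he : ‖e‖ = 1) {ξ : En n} (hξ : r + 1 ≤ ‖ξ‖) {τ : ℝ} (h1 : |τ| ≤ δ) (h2 : |τ| ≤ 1) :
    |Φ (ξ + τ • e) - Φ ξ - τ * fderiv ℝ Φ ξ e| ≤ (c / (2 * N)) * ‖ξ‖ ^ γ * |τ| := by
  have hm : ∀ x ∈ Metric.closedBall ξ |τ|, ‖ξ - x‖ ≤ |τ| := by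
    intro x hx
    rw [Metric.mem_closedBall, dist_comm, dist_eq_norm] at hx
    exact hx
  have h := Convex.norm_image_sub_le_of_norm_fderiv_le' (𝕜 := ℝ) (f := Φ) (φ := fderiv ℝ Φ ξ)
    (s := Metric.closedBall ξ |τ|) (x := ξ) (y := ξ + τ • e) (C := (c / (2 * N)) * ‖ξ‖ ^ γ)
    (fun x hx => hdiff x (by
      have h3 := norm_sub_norm_le ξ x
      linarith [hm x hx]))
    (fun x hx => by
      rw [norm_sub_rev]
      exact hslow ξ x (by linarith) ((hm x hx).trans h1))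
    (convex_closedBall _ _) (Metric.mem_closedBall_self (abs_nonneg _))
    (by rw [Metric.mem_closedBall, dist_eq_norm, add_sub_cancel_left, norm_smul, he, mul_one,
          Real.norm_eq_abs])
  rw [add_sub_cancel_left, norm_smul, he, mul_one, Real.norm_eq_abs, Real.norm_eq_abs, map_smul,
    smul_eq_mul] at h
  exact h

theorem expands_of (hγ : 0 < γ) (hc : 0 < c) (hC : 0 ≤ C) (hN : 1 ≤ N)
    (hdiff : ∀ ξ : En n, r ≤ ‖ξ‖ → DifferentiableAt ℝ Φ ξ)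
    (hsize : ∀ ξ : En n, r ≤ ‖ξ‖ → c * ‖ξ‖ ^ γ ≤ ‖fderiv ℝ Φ ξ‖ ∧ ‖fderiv ℝ Φ ξ‖ ≤ C * ‖ξ‖ ^ γ)
    (hslow : ∀ ξ η : En n, r ≤ ‖ξ‖ → ‖ξ - η‖ ≤ δ →
      ‖fderiv ℝ Φ ξ - fderiv ℝ Φ η‖ ≤ (c / (2 * N)) * ‖ξ‖ ^ γ)
    {e : En n} (he : ‖e‖ = 1) {K : En n → ℂ} {k : ℕ} (hk : r + 1 ≤ 2 ^ k)
    (hK : ∀ ξ, K ξ ≠ 0 → (2 : ℝ) ^ k ≤ ‖ξ‖ ∧ ‖ξ‖ ≤ 2 ^ (k + 1) ∧
      ‖fderiv ℝ Φ ξ‖ ≤ N * |fderiv ℝ Φ ξ e|) {s : ℝ} (hs : s ≤ δ) (hs1 : s ≤ 1) :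
    Expands e s Φ (c / (2 * N) * (2 : ℝ) ^ (γ * k)) ((C + c) * 2 ^ γ * (2 : ℝ) ^ (γ * k)) K := by
  have h2 : (0 : ℝ) < 2 := by norm_num
  have hpow : (2 : ℝ) ^ (γ * k) = ((2 : ℝ) ^ k) ^ γ := by
    rw [mul_comm, Real.rpow_mul h2.le, Real.rpow_natCast]
  have hlow : ∀ ξ, K ξ ≠ 0 → (2 : ℝ) ^ (γ * k) ≤ ‖ξ‖ ^ γ := by
    intro ξ hξ
    rw [hpow]
    exact Real.rpow_le_rpow (by positivity) (hK ξ hξ).1 hγ.le
  have hup : ∀ ξ, K ξ ≠ 0 → ‖ξ‖ ^ γ ≤ 2 ^ γ * (2 : ℝ) ^ (γ * k) := by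
    intro ξ hξ
    rw [hpow, ← Real.mul_rpow h2.le (by positivity), ← pow_succ']
    exact Real.rpow_le_rpow (norm_nonneg _) (hK ξ hξ).2.1 hγ.le
  have hN0 : 0 < N := by linarith
  constructor
  · intro ξ τ hτ h3 _
    obtain ⟨h4, h5, h6⟩ := hK ξ h3
    have h7 := taylor hdiff hslow he (ξ := ξ) (hk.trans h4) (hτ.trans hs) (hτ.trans hs1)
    have h8 := (hsize ξ (by linarith)).1
    have h9 : c / N * ‖ξ‖ ^ γ ≤ |fderiv ℝ Φ ξ e| := by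
      rw [div_mul_eq_mul_div, div_le_iff₀ hN0]
      linarith
    have h10 : |τ * fderiv ℝ Φ ξ e| = |τ| * |fderiv ℝ Φ ξ e| := abs_mul _ _
    have h11 : |τ| * |fderiv ℝ Φ ξ e| ≤ |Φ (ξ + τ • e) - Φ ξ| + c / (2 * N) * ‖ξ‖ ^ γ * |τ| := by
      rw [← h10]
      have h12 : τ * fderiv ℝ Φ ξ e = (Φ (ξ + τ • e) - Φ ξ) - (Φ (ξ + τ • e) - Φ ξ - τ * fderiv ℝ Φ ξ e) := by
        ring
      rw [h12]
      refine (abs_sub _ _).trans ?_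
      gcongr
    have h13 : |τ| * (c / N * ‖ξ‖ ^ γ) ≤ |τ| * |fderiv ℝ Φ ξ e| :=
      mul_le_mul_of_nonneg_left h9 (abs_nonneg _)
    have h14 : c / N = 2 * (c / (2 * N)) := by field_simp
    have h15 : c / (2 * N) * ‖ξ‖ ^ γ * |τ| ≤ |Φ (ξ + τ • e) - Φ ξ| := by
      rw [h14] at h13
      linarith
    refine le_trans ?_ h15
    have : 0 ≤ c / (2 * N) := by positivity
    gcongr
    exact hlow ξ h3
  · intro ξ τ h0 hτ h3
    obtain ⟨h4, h5, h6⟩ := hK ξ h3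
    have habs : |τ| ≤ s := by rwa [abs_of_nonneg h0]
    have h7 := taylor hdiff hslow he (ξ := ξ) (hk.trans h4) (habs.trans hs) (habs.trans hs1)
    have h8 := (hsize ξ (by linarith)).2
    have h9 : |fderiv ℝ Φ ξ e| ≤ C * ‖ξ‖ ^ γ := by
      refine le_trans ?_ h8
      have := (fderiv ℝ Φ ξ).le_opNorm e
      rwa [he, mul_one, Real.norm_eq_abs] at this
    have h10 : |Φ ξ - Φ (ξ + τ • e)| ≤ |τ| * |fderiv ℝ Φ ξ e| + c / (2 * N) * ‖ξ‖ ^ γ * |τ| := by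
      rw [abs_sub_comm, ← abs_mul]
      have h12 : Φ (ξ + τ • e) - Φ ξ = τ * fderiv ℝ Φ ξ e + (Φ (ξ + τ • e) - Φ ξ - τ * fderiv ℝ Φ ξ e) := by
        ring
      rw [h12]
      refine (abs_add_le _ _).trans ?_
      gcongr
    have hτ1 : |τ| ≤ 1 := habs.trans hs1
    have hp : 0 ≤ ‖ξ‖ ^ γ := by positivity
    have h11 : c / (2 * N) ≤ c := by
      rw [div_le_iff₀ (by positivity)]
      nlinarith
    calc |Φ ξ - Φ (ξ + τ • e)| ≤ |τ| * |fderiv ℝ Φ ξ e| + c / (2 * N) * ‖ξ‖ ^ γ * |τ| := h10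
      _ ≤ 1 * (C * ‖ξ‖ ^ γ) + c * ‖ξ‖ ^ γ * 1 := by gcongr
      _ = (C + c) * ‖ξ‖ ^ γ := by ring
      _ ≤ (C + c) * (2 ^ γ * (2 : ℝ) ^ (γ * k)) :=
          mul_le_mul_of_nonneg_left (hup ξ h3) (by positivity)
      _ = _ := by ring

end

/-- some coordinate direction sees the gradient -/
lemma exists_dir {n : ℕ} (hn : 0 < n) (L : En n →L[ℝ] ℝ) :
    ∃ j : Fin n, ‖L‖ ≤ n * |L (EuclideanSpace.single j 1)| := by
  classical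
  have : Nonempty (Fin n) := ⟨⟨0, hn⟩⟩
  obtain ⟨j, hj⟩ := Finite.exists_max fun j : Fin n => |L (EuclideanSpace.single j 1)|
  refine ⟨j, L.opNorm_le_bound (by positivity) fun v => ?_⟩
  have h1 : v = ∑ i, v i • EuclideanSpace.single i (1 : ℝ) := by
    ext i
    simp [Pi.single_apply]
  calc ‖L v‖ = ‖∑ i, v i • L (EuclideanSpace.single i 1)‖ := by
        conv_lhs => rw [h1]
        simp only [map_sum, map_smul]
    _ ≤ ∑ i, ‖v i • L (EuclideanSpace.single i 1)‖ := norm_sum_le _ _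
    _ ≤ ∑ _i : Fin n, ‖v‖ * |L (EuclideanSpace.single j 1)| := by
        refine Finset.sum_le_sum fun i _ => ?_
        rw [norm_smul]
        exact mul_le_mul (EuclideanSpace.norm_eq v ▸ by
          rw [← EuclideanSpace.norm_eq v]; exact PiLp.norm_apply_le v i) (hj i) (norm_nonneg _) (norm_nonneg _)
    _ = n * |L (EuclideanSpace.single j 1)| * ‖v‖ := by
        rw [Finset.sum_const, Finset.card_univ, Fintype.card_fin, nsmul_eq_mul]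
        ring

end Pool.Agent.P8H68.DO
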