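import Pool.Agent.P8H68.DO.Disp

/-! Dispersive orbits: all directions together. -/

set_option autoImplicit false

open MeasureTheory Set Filter Topology
open scoped ENNReal RealInnerProductSpace

namespace Pool.Agent.P8H68.DO

open Pool.Agent.Helper93.Sph (En ek Fi shell shell_meas ps energy energy_meas energy_bound
  energy_fin energy_partition ek_int)

lemma good_zero {m : ℕ} {H : En (m + 1) → ℂ} (h : ∀ ξ, H ξ = 0) : Good H := by
  have h1 : ∀ x R, ps H R x = 0 := by
    intro x R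
    rw [ps]
    refine integral_eq_zero_of_ae (Eventually.of_forall fun ξ => ?_)
    simp [h ξ]
  refine ⟨fun ρ => ⟨fun _ => 0, measurable_const, fun x R => by rw [h1]; simp, by simp⟩, ?_⟩
  refine Eventually.of_forall fun x => ⟨0, ?_⟩
  simp_rw [h1]
  exact tendsto_const_nhds

theorem disp_good {m : ℕ} {Φ : En (m + 1) → ℝ} {γ c C r δ : ℝ} (hΦ : Measurable Φ) (hγ : 0 < γ)
    (hc : 0 < c) (hC : 1 ≤ C) (hδ : 0 < δ)
    (hdiff : ∀ ξ : En (m + 1), r ≤ ‖ξ‖ → DifferentiableAt ℝ Φ ξ)
    (hsize : ∀ ξ : En (m + 1), r ≤ ‖ξ‖ → c * ‖ξ‖ ^ γ ≤ ‖fderiv ℝ Φ ξ‖ ∧ ‖fderiv ℝ Φ ξ‖ ≤ C * ‖ξ‖ ^ γ)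
    (hslow : ∀ ξ η : En (m + 1), r ≤ ‖ξ‖ → ‖ξ - η‖ ≤ δ →
      ‖fderiv ℝ Φ ξ - fderiv ℝ Φ η‖ ≤ (c / (2 * ((m + 1 : ℕ) : ℝ))) * ‖ξ‖ ^ γ)
    {G : En (m + 1) → ℂ} (hGm : Measurable G) (hG : MemLp G 2) :
    ∃ B : Set ℝ, dimH B = 0 ∧ ∀ t ∉ B, Good (evo Φ t G) := by
  classical
  set N : ℝ := ((m + 1 : ℕ) : ℝ) with hN
  have hN1 : 1 ≤ N := by rw [hN]; push_cast; linarith [(m.cast_nonneg : (0 : ℝ) ≤ m)]
  set cone : Fin (m + 1) → Set (En (m + 1)) := fun j =>
    {ξ | ‖fderiv ℝ Φ ξ‖ ≤ N * |fderiv ℝ Φ ξ (EuclideanSpace.single j 1)|} with hcone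
  have hcm : ∀ j, MeasurableSet (cone j) := by
    intro j
    refine measurableSet_le (measurable_fderiv ℝ Φ).norm ?_
    exact (measurable_const.mul (continuous_abs.measurable.comp
      (measurable_fderiv_apply_const ℝ Φ (EuclideanSpace.single j 1))))
  have hsingle : ∀ (s : Finset (Fin (m + 1))) (G : En (m + 1) → ℂ), Measurable G → MemLp G 2 →
      (∀ ξ, G ξ ≠ 0 → ∃ j ∈ s, ξ ∈ cone j) →
      ∃ B : Set ℝ, dimH B = 0 ∧ ∀ t ∉ B, Good (evo Φ t G) := by
    intro s
    induction s using Finset.induction_on with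
    | empty =>
      intro G _ _ h
      refine ⟨∅, dimH_empty, fun t _ => good_zero fun ξ => ?_⟩
      have : G ξ = 0 := by
        by_contra h'
        obtain ⟨j, hj, _⟩ := h ξ h'
        simp at hj
      rw [evo, this, mul_zero]
    | insert j s hj ih =>
      intro G hGm hG h
      have he : ‖EuclideanSpace.single j (1 : ℝ)‖ = 1 := by simp
      -- the part in the cone
      have hA : ∃ B : Set ℝ, dimH B = 0 ∧ ∀ t ∉ B, Good (evo Φ t ((cone j).indicator G)) := by
        obtain ⟨k₀, hk₀⟩ := pow_unbounded_of_one_lt (r + 1) (by norm_num : (1 : ℝ) < 2)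
        have hC1 : 1 ≤ (C + c) * 2 ^ γ := by
          have : (1 : ℝ) ≤ 2 ^ γ := Real.one_le_rpow (by norm_num) hγ.le
          nlinarith
        refine core_good _ he hΦ (hGm.indicator (hcm j)) (hG.indicator (hcm j)) hγ
          (c := c / (2 * N)) (C := (C + c) * 2 ^ γ) (s₀ := δ) (by positivity) hC1 hδ k₀
          fun k hk s hs hsδ hs1 => ?_
        refine expands_of hγ hc (by linarith) hN1 hdiff hsize hslow he (k := k) ?_ ?_ hsδ hs1
        · exact hk₀.le.trans (pow_le_pow_right₀ (by norm_num) hk)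
        · intro ξ hξ
          rw [dya] at hξ
          have h1 := mem_of_indicator_ne_zero hξ
          rw [indicator_of_mem h1] at hξ
          have h2 := mem_of_indicator_ne_zero hξ
          refine ⟨?_, ?_, h2⟩
          · have := h1.1
            push_cast at this
            exact this
          · have := h1.2
            push_cast at this
            exact this.le
      obtain ⟨B₁, hB₁, h₁⟩ := hA
      obtain ⟨B₂, hB₂, h₂⟩ := ih ((cone j)ᶜ.indicator G) (hGm.indicator (hcm j).compl)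
        (hG.indicator (hcm j).compl) fun ξ hξ => by
          have h1 := mem_of_indicator_ne_zero hξ
          rw [indicator_of_mem h1] at hξ
          obtain ⟨i, hi, hi'⟩ := h ξ hξ
          rcases Finset.mem_insert.1 hi with rfl | hi
          · exact absurd hi' h1
          · exact ⟨i, hi, hi'⟩
      refine ⟨B₁ ∪ B₂, by rw [dimH_union, hB₁, hB₂]; simp, fun t ht => ?_⟩
      rw [mem_union, not_or] at ht
      have h3 := good_add (evo_memLp hΦ t (hG.indicator (hcm j)))
        (evo_memLp hΦ t (hG.indicator (hcm j).compl)) (h₁ t ht.1) (h₂ t ht.2)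
      have h4 : (fun ξ => evo Φ t ((cone j).indicator G) ξ + evo Φ t ((cone j)ᶜ.indicator G) ξ) =
          evo Φ t G := by
        funext ξ
        rw [evo, evo, evo, ← mul_add]
        congr 1
        have := congrFun (indicator_self_add_compl (cone j) G) ξ
        simpa using this
      rwa [h4] at h3
  refine hsingle Finset.univ G hGm hG fun ξ _ => ?_
  obtain ⟨j, hj⟩ := exists_dir (Nat.succ_pos m) (fderiv ℝ Φ ξ)
  exact ⟨j, Finset.mem_univ _, hj⟩

end Pool.Agent.P8H68.DO
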