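import Pool.Agent.P8H68.DO.Loc

/-! The pointwise limit of the ball partial sums of an `L²` function is the function. -/

set_option autoImplicit false

open MeasureTheory Set Filter FourierTransform Topology SchwartzMap
open scoped ENNReal RealInnerProductSpace ContDiff

namespace Pool.Agent.P8H68.DO

open Pool.Agent.Helper93.Sph (En ek Fi ek_norm ek_cont ek_int ek_add ps)

variable {n : ℕ}

lemma Fi_eq_inv (f : En n → ℂ) (x : En n) : Fi f x = 𝓕⁻ f x := by
  rw [Real.fourierInv_eq_fourier_neg, Fi_eq]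

lemma inv_ae_eq (f : En n → ℂ) (h1 : Integrable f) (h2 : MemLp f 2) :
    ((𝓕⁻ (h2.toLp f) : Lp ℂ 2 (volume : Measure (En n))) : En n → ℂ) =ᵐ[volume] 𝓕⁻ f := by
  have hcont : Continuous (𝓕⁻ f) := by
    have h := VectorFourier.fourierIntegral_continuous (L := innerₗ (En n)) Real.continuous_fourierChar
      continuous_inner h1
    have h' : Continuous fun x => 𝓕 f (-x) := (show Continuous (𝓕 f) from h).comp continuous_neg
    refine h'.congr fun x => ?_
    rw [Real.fourierInv_eq_fourier_neg]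
  apply ae_eq_of_integral_contDiff_smul_eq
  · exact (Lp.memLp _).locallyIntegrable (by norm_num)
  · exact hcont.locallyIntegrable
  · intro g g_smooth g_cpt
    have hg₁ : HasCompactSupport (Complex.ofRealCLM ∘ g) := g_cpt.comp_left rfl
    have hg₂ : ContDiff ℝ ∞ (Complex.ofRealCLM ∘ g) := by fun_prop
    set gS : 𝓢(En n, ℂ) := hg₁.toSchwartzMap hg₂ with hgS
    have hgx : ∀ x, gS x = (g x : ℂ) := fun x => rfl
    have e1 : ∫ x, g x • ((𝓕⁻ (h2.toLp f) : Lp ℂ 2 (volume : Measure (En n))) : En n → ℂ) x =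
        ((𝓕⁻ (h2.toLp f) : Lp ℂ 2 (volume : Measure (En n))) : 𝓢'(En n, ℂ)) gS := by
      rw [Lp.toTemperedDistribution_apply]
      simp [hgx]
    rw [e1, ← Lp.fourierInv_toTemperedDistribution_eq, TemperedDistribution.fourierInv_apply,
      Lp.toTemperedDistribution_apply]
    have e2 : ∫ x, (𝓕⁻ gS) x • (h2.toLp f : En n → ℂ) x = ∫ x, (𝓕⁻ gS) x • f x := by
      apply integral_congr_ae
      filter_upwards [h2.coeFn_toLp] with x hx
      rw [hx]
    rw [e2]
    have e3 := VectorFourier.integral_fourierIntegral_smul_eq_flip (L := -innerₗ (En n))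
      Real.continuous_fourierChar (by
        have : Continuous fun p : En n × En n => -⟪p.1, p.2⟫ := by fun_prop
        exact this) gS.integrable h1 (μ := volume) (ν := volume)
    have hflip : (-innerₗ (En n)).flip = -innerₗ (En n) := by
      ext x y
      simp [real_inner_comm]
    rw [hflip] at e3
    have e4 : ∫ x, (𝓕⁻ gS) x • f x = ∫ x, gS x • (𝓕⁻ f) x := by
      rw [SchwartzMap.fourierInv_coe]
      exact e3
    rw [e4]
    simp [hgx]

lemma ind_integrable {G : En n → ℂ} (hG : MemLp G 2) (R : ℝ) :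
    Integrable ((Metric.closedBall (0 : En n) R).indicator G) := by
  rw [integrable_indicator_iff measurableSet_closedBall]
  exact (hG.locallyIntegrable (by norm_num)).integrableOn_isCompact (isCompact_closedBall _ _)

lemma ps_eq_Fi (G : En n → ℂ) (R : ℝ) (x : En n) :
    ps G R x = Fi ((Metric.closedBall (0 : En n) R).indicator G) x := by
  rw [ps, Fi, ← integral_indicator measurableSet_closedBall]
  refine integral_congr_ae (Eventually.of_forall fun ξ => ?_)
  by_cases h : ξ ∈ Metric.closedBall (0 : En n) R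
  · simp only [indicator_of_mem h]
  · simp only [indicator_of_notMem h, mul_zero]

/-- truncations converge in `L²` -/
lemma trunc_tendsto {G : En n → ℂ} (hG : MemLp G 2) :
    Tendsto (fun k : ℕ => eLpNorm ((Metric.closedBall (0 : En n) k).indicator G - G) 2 volume) atTop
      (𝓝 0) := by
  have h := tendsto_lintegral_of_dominated_convergence' (μ := (volume : Measure (En n)))
    (F := fun (k : ℕ) ξ => ‖((Metric.closedBall (0 : En n) k).indicator G - G) ξ‖ₑ ^ 2)
    (f := fun _ => 0) (fun ξ => ‖G ξ‖ₑ ^ 2) ?_ ?_ ?_ ?_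
  · have h2 : ∀ k : ℕ, eLpNorm ((Metric.closedBall (0 : En n) k).indicator G - G) 2 volume =
        (∫⁻ ξ, ‖((Metric.closedBall (0 : En n) k).indicator G - G) ξ‖ₑ ^ 2) ^ (1 / 2 : ℝ) := by
      intro k
      rw [eLpNorm_eq_lintegral_rpow_enorm_toReal (by norm_num) (by norm_num)]
      simp
    simp_rw [h2]
    have h3 := (ENNReal.continuous_rpow_const (y := (1 / 2 : ℝ))).tendsto (∫⁻ _ : En n, (0 : ℝ≥0∞))
    have h4 := h3.comp h
    simp only [lintegral_zero] at h4
    rw [ENNReal.zero_rpow_of_pos (by norm_num)] at h4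
    exact h4
  · intro k
    exact ((hG.indicator measurableSet_closedBall).sub hG).aestronglyMeasurable.enorm.pow_const 2
  · intro k
    refine Eventually.of_forall fun ξ => ?_
    simp only [Pi.sub_apply]
    by_cases hm : ξ ∈ Metric.closedBall (0 : En n) k
    · rw [indicator_of_mem hm]; simp
    · rw [indicator_of_notMem hm]; simp
  · have := hG.eLpNorm_lt_top
    rw [eLpNorm_lt_top_iff_lintegral_rpow_enorm_lt_top (by norm_num) (by norm_num)] at this
    have h5 : ∫⁻ ξ, ‖G ξ‖ₑ ^ 2 < ⊤ := by simpa using this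
    exact h5.ne
  · refine Eventually.of_forall fun ξ => ?_
    obtain ⟨N, hN⟩ := exists_nat_ge ‖ξ‖
    refine tendsto_const_nhds.congr' ?_
    filter_upwards [eventually_ge_atTop N] with k hk
    have : ξ ∈ Metric.closedBall (0 : En n) k := by
      rw [Metric.mem_closedBall, dist_zero_right]
      exact hN.trans (by exact_mod_cast hk)
    simp [indicator_of_mem this]

lemma sq_eq (F : En n → ℂ) : ∫⁻ x, ‖F x‖ₑ ^ 2 = eLpNorm F 2 volume ^ 2 := by
  rw [eLpNorm_eq_lintegral_rpow_enorm_toReal (by norm_num) (by norm_num), ← ENNReal.rpow_natCast,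
    ← ENNReal.rpow_mul]
  simp

/-- truncations converge in `L²`, real radii -/
lemma trunc_tendsto' {G : En n → ℂ} (hG : MemLp G 2) :
    Tendsto (fun R : ℝ => eLpNorm ((Metric.closedBall (0 : En n) R).indicator G - G) 2 volume) atTop
      (𝓝 0) := by
  have h1 := (trunc_tendsto hG).comp (tendsto_nat_floor_atTop (α := ℝ))
  refine tendsto_of_tendsto_of_tendsto_of_le_of_le' tendsto_const_nhds h1
    (Eventually.of_forall fun _ => zero_le) ?_
  filter_upwards [eventually_ge_atTop (0 : ℝ)] with R hR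
  refine eLpNorm_mono fun ξ => ?_
  simp only [Pi.sub_apply]
  by_cases h : ξ ∈ Metric.closedBall (0 : En n) R
  · rw [indicator_of_mem h]
    simp
  · have h' : ξ ∉ Metric.closedBall (0 : En n) (⌊R⌋₊ : ℝ) := fun h2 =>
      h (Metric.closedBall_subset_closedBall (Nat.floor_le hR) h2)
    rw [indicator_of_notMem h, indicator_of_notMem h']

/-- the `L²` limit of the partial sums, and it is the pointwise limit -/
theorem lim_fun {G : En n → ℂ} (hG : MemLp G 2) :
    ∃ g : En n → ℂ, MemLp g 2 ∧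
      Tendsto (fun R : ℝ => eLpNorm (fun x => ps G R x - g x) 2 volume) atTop (𝓝 0) ∧
      ∀ L : En n → ℂ, (∀ᵐ x : En n, Tendsto (fun R : ℝ => ps G R x) atTop (𝓝 (L x))) →
        ∀ᵐ x : En n, L x = g x := by
  set g : Lp ℂ 2 (volume : Measure (En n)) := 𝓕⁻ (hG.toLp G) with hg
  have hT2 : ∀ R : ℝ, MemLp ((Metric.closedBall (0 : En n) R).indicator G) 2 := fun R =>
    hG.indicator measurableSet_closedBall
  have hT1 : ∀ R : ℝ, Integrable ((Metric.closedBall (0 : En n) R).indicator G) := fun R =>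
    ind_integrable hG R
  have hps : ∀ R : ℝ, (fun x => ps G R x) =ᵐ[volume]
      ((𝓕⁻ ((hT2 R).toLp _) : Lp ℂ 2 (volume : Measure (En n))) : En n → ℂ) := by
    intro R
    filter_upwards [inv_ae_eq _ (hT1 R) (hT2 R)] with x hx
    rw [hx, ps_eq_Fi, Fi_eq_inv]
  have hconv : Tendsto (fun R : ℝ => (hT2 R).toLp _) atTop (𝓝 (hG.toLp G)) := by
    rw [Lp.tendsto_Lp_iff_tendsto_eLpNorm']
    refine (trunc_tendsto' hG).congr fun R => ?_
    refine eLpNorm_congr_ae ?_
    filter_upwards [(hT2 R).coeFn_toLp, hG.coeFn_toLp] with x hx hx'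
    rw [Pi.sub_apply, Pi.sub_apply, hx, hx']
  have hc2 : Tendsto (fun R : ℝ => (𝓕⁻ ((hT2 R).toLp _) : Lp ℂ 2 (volume : Measure (En n)))) atTop
      (𝓝 g) :=
    (((Lp.fourierTransformₗᵢ (En n) ℂ).symm.continuous).tendsto _).comp hconv
  refine ⟨g, Lp.memLp g, ?_, fun L hL => ?_⟩
  · rw [Lp.tendsto_Lp_iff_tendsto_eLpNorm'] at hc2
    refine hc2.congr fun R => eLpNorm_congr_ae ?_
    filter_upwards [hps R] with x hx
    rw [Pi.sub_apply, ← hx]
  · have hc3 := tendstoInMeasure_of_tendsto_Lp (hc2.comp tendsto_natCast_atTop_atTop)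
    obtain ⟨φ, hφ, hae⟩ := hc3.exists_seq_tendsto_ae
    have hall : ∀ᵐ x : En n, ∀ k : ℕ, ((𝓕⁻ ((hT2 (k : ℝ)).toLp _) :
        Lp ℂ 2 (volume : Measure (En n))) : En n → ℂ) x = ps G k x := by
      rw [ae_all_iff]
      intro k
      filter_upwards [hps (k : ℝ)] with x hx
      exact hx.symm
    filter_upwards [hL, hae, hall] with x h1 h2 h3
    simp only [Function.comp_apply] at h2
    simp_rw [h3] at h2
    exact tendsto_nhds_unique ((h1.comp tendsto_natCast_atTop_atTop).comp hφ.tendsto_atTop) h2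

end Pool.Agent.P8H68.DO
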