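import Pool.Agent.P8H68.DO.Core
import Pool.Agent.P8H68.DO.Lim

/-! Good data, sums of good data. -/

set_option autoImplicit false

open MeasureTheory Set Filter Topology
open scoped ENNReal RealInnerProductSpace

namespace Pool.Agent.P8H68.DO

open Pool.Agent.Helper93.Sph (En ek Fi shell shell_meas ps energy energy_meas energy_bound
  energy_fin energy_partition ek_int)

variable {m : ℕ}

/-- locally square integrable maximal function and convergence -/
def Good (H : En (m + 1) → ℂ) : Prop :=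
  (∀ ρ : ℕ, ∃ M : En (m + 1) → ℝ≥0∞, Measurable M ∧ (∀ x R, ‖ps H R x‖ₑ ^ 2 ≤ M x) ∧
    ∫⁻ x in Metric.closedBall (0 : En (m + 1)) ρ, M x < ⊤) ∧
  ∀ᵐ x : En (m + 1), ∃ L : ℂ, Tendsto (fun R : ℝ => ps H R x) atTop (𝓝 L)

lemma ps_add {H K : En (m + 1) → ℂ} (hH : MemLp H 2) (hK : MemLp K 2) (R : ℝ) (x : En (m + 1)) :
    ps (fun ξ => H ξ + K ξ) R x = ps H R x + ps K R x := by
  have h1 : ∀ {H : En (m + 1) → ℂ}, MemLp H 2 →
      Integrable (fun ξ => ek x ξ * H ξ) (volume.restrict (Metric.closedBall (0 : En (m + 1)) R)) := by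
    intro H hH
    have h2 := ek_int (ind_integrable hH R) x
    have h3 : (fun ξ => ek x ξ * (Metric.closedBall (0 : En (m + 1)) R).indicator H ξ) =
        (Metric.closedBall (0 : En (m + 1)) R).indicator fun ξ => ek x ξ * H ξ := by
      funext ξ
      by_cases h : ξ ∈ Metric.closedBall (0 : En (m + 1)) R
      · simp only [indicator_of_mem h]
      · simp only [indicator_of_notMem h, mul_zero]
    rw [h3, integrable_indicator_iff measurableSet_closedBall] at h2
    exact h2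
  rw [ps, ps, ps, ← integral_add (h1 hH) (h1 hK)]
  exact integral_congr_ae (Eventually.of_forall fun ξ => by simp only [mul_add])

lemma good_add {H K : En (m + 1) → ℂ} (hH : MemLp H 2) (hK : MemLp K 2) (h1 : Good H) (h2 : Good K) :
    Good (fun ξ => H ξ + K ξ) := by
  constructor
  · intro ρ
    obtain ⟨M, hM1, hM2, hM3⟩ := h1.1 ρ
    obtain ⟨N, hN1, hN2, hN3⟩ := h2.1 ρ
    refine ⟨fun x => 2 * (M x + N x), (hM1.add hN1).const_mul _, fun x R => ?_, ?_⟩
    · rw [ps_add hH hK]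
      refine (Pool.Agent.Helper93.Sph.enorm_add_sq_le _ _).trans ?_
      exact mul_le_mul_right (add_le_add (hM2 x R) (hN2 x R)) _
    · have h4 := lintegral_const_mul (μ := volume.restrict (Metric.closedBall (0 : En (m + 1)) ρ)) 2
        (f := fun x => M x + N x) (hM1.add hN1)
      show ∫⁻ x in Metric.closedBall (0 : En (m + 1)) ρ, 2 * (M x + N x) < ⊤
      rw [h4, lintegral_add_left hM1]
      exact ENNReal.mul_lt_top (by simp) (ENNReal.add_lt_top.2 ⟨hM3, hN3⟩)
  · filter_upwards [h1.2, h2.2] with x ⟨L, hL⟩ ⟨L', hL'⟩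
    refine ⟨L + L', ?_⟩
    simp_rw [ps_add hH hK]
    exact hL.add hL'

theorem core_good (e : En (m + 1)) (he : ‖e‖ = 1) {Φ : En (m + 1) → ℝ} (hΦ : Measurable Φ)
    {G : En (m + 1) → ℂ} (hGm : Measurable G) (hG : MemLp G 2) {g c C s₀ : ℝ} (hg : 0 < g)
    (hc : 0 < c) (hC : 1 ≤ C) (hs₀ : 0 < s₀) (k₀ : ℕ)
    (hexp : ∀ k ≥ k₀, ∀ s : ℝ, 0 < s → s ≤ s₀ → s ≤ 1 →
      Expands e s Φ (c * (2 : ℝ) ^ (g * k)) (C * (2 : ℝ) ^ (g * k)) (dya k G)) :
    ∃ B : Set ℝ, dimH B = 0 ∧ ∀ t ∉ B, Good (evo Φ t G) := by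
  obtain ⟨B, hB, h⟩ := core e he hΦ hGm hG hg hc hC hs₀ k₀ hexp
  refine ⟨B, hB, fun t ht => ?_⟩
  have hH : MemLp (evo Φ t G) 2 := evo_memLp hΦ t hG
  constructor
  · intro ρ
    obtain ⟨k₁, hk₁⟩ := h t ht ρ
    refine ⟨fun x => 6 * ((2 ^ k₁ : ℕ) : ℝ≥0∞) * energy (evo Φ t G) x + 8 * NN k₁ (evo Φ t G) x,
      ((energy_meas hH).const_mul _).add ((NN_meas hH k₁).const_mul _), fun x R => ?_, ?_⟩
    · exact sup_bound hH k₁ x R
    · rw [lintegral_add_left ((energy_meas hH).const_mul _), lintegral_const_mul _ (energy_meas hH),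
        lintegral_const_mul _ (NN_meas hH k₁)]
      refine ENNReal.add_lt_top.2 ⟨ENNReal.mul_lt_top ?_ ?_, ENNReal.mul_lt_top (by simp) hk₁⟩
      · exact ENNReal.mul_lt_top (by simp) (by simp)
      · have h1 := energy_bound hH (0 : En (m + 1)) (ρ := (ρ : ℝ) + 1) (by positivity)
        refine lt_of_le_of_lt (le_trans (lintegral_mono_set ?_) h1) ?_
        · exact Metric.closedBall_subset_closedBall (by linarith)
        · exact ENNReal.mul_lt_top (by simp) (sq_int_lt hH)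
  · have h1 : ∀ ρ : ℕ, ∀ᵐ x : En (m + 1), x ∈ Metric.closedBall (0 : En (m + 1)) ρ →
        ∃ L : ℂ, Tendsto (fun R : ℝ => ps (evo Φ t G) R x) atTop (𝓝 L) := by
      intro ρ
      obtain ⟨k₁, hk₁⟩ := h t ht ρ
      have h2 := ae_lt_top (NN_meas hH k₁) hk₁.ne
      rw [ae_restrict_iff' measurableSet_closedBall] at h2
      filter_upwards [h2, energy_fin hH] with x h3 h4 hx
      exact conv hH (h3 hx) h4
    filter_upwards [ae_all_iff.2 h1] with x hx
    obtain ⟨N, hN⟩ := exists_nat_ge ‖x‖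
    exact hx N (by rw [Metric.mem_closedBall, dist_zero_right]; exact hN)

end Pool.Agent.P8H68.DO
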