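import Pool.Agent.P8H68.DO.Piece

/-! Few bad time windows at each dyadic level. -/

set_option autoImplicit false

open MeasureTheory Set Filter
open scoped ENNReal RealInnerProductSpace

namespace Pool.Agent.P8H68.DO

open Pool.Agent.Helper93.Sph (En ek Fi shell shell_meas)

variable {n : ℕ}

lemma evo_ind (Φ : En n → ℝ) (t : ℝ) (A : Set (En n)) (G : En n → ℂ) :
    evo Φ t (A.indicator G) = A.indicator (evo Φ t G) := by
  classical
  funext ξ
  simp only [evo, Set.indicator]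
  split_ifs <;> simp

lemma Expands.ind {e : En n} {s : ℝ} {Φ : En n → ℝ} {lam Λ : ℝ} {K : En n → ℂ}
    (h : Expands e s Φ lam Λ K) (A : Set (En n)) : Expands e s Φ lam Λ (A.indicator K) := by
  have h0 : ∀ ξ, A.indicator K ξ ≠ 0 → K ξ ≠ 0 := by
    intro ξ h1 h2
    apply h1
    by_cases hA : ξ ∈ A
    · rw [Set.indicator_of_mem hA, h2]
    · rw [Set.indicator_of_notMem hA]
  exact ⟨fun ξ τ h1 h2 h3 => h.1 ξ τ h1 (h0 _ h2) (h0 _ h3),
    fun ξ τ h1 h2 h3 => h.2 ξ τ h1 h2 (h0 _ h3)⟩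

/-- sum over all windows -/
theorem sum_wen {e : En n} {s : ℝ} {Φ : En n → ℝ} {lam Λ : ℝ} {K : En n → ℂ}
    (hΦ : Measurable Φ) (hK : Measurable K) (hl : 0 < lam) (hΛ : 0 < Λ)
    (h : Expands e s Φ lam Λ K) {T T' : ℝ} (hT : 0 < T) (hTT : T ≤ T') {M : ℕ}
    (hM : -T + M * (1 / Λ) ≤ T') :
    ∑ q ∈ Finset.range M, wen e s Φ Λ K (-T + q * (1 / Λ)) ≤
      ENNReal.ofReal (72 * Λ / lam) * (ENNReal.ofReal s * ∫⁻ ξ, ‖K ξ‖ₑ ^ 2) := by
  have hm : ∀ (f : En n × ℝ → ℂ) (I : Set ℝ), Measurable f →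
      Measurable fun ζ => ∫⁻ y in I, ‖f (ζ, y)‖ₑ ^ 2 := fun f I hf =>
    (hf.enorm.pow_const 2).lintegral_prod_right' (ν := volume.restrict I)
  have hsub : Icc (-T) (-T + M * (1 / Λ)) ⊆ Icc (-T') T' := fun y hy =>
    ⟨by linarith [hy.1], hy.2.trans hM⟩
  have key : ∀ f : En n × ℝ → ℂ, Measurable f →
      ∑ q ∈ Finset.range M, (∫⁻ ζ, ∫⁻ y in Icc (-T + q * (1 / Λ)) (-T + q * (1 / Λ) + 1 / Λ),
        ‖f (ζ, y)‖ₑ ^ 2) ≤ ∫⁻ ζ, ∫⁻ y in Icc (-T') T', ‖f (ζ, y)‖ₑ ^ 2 := by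
    intro f hf
    rw [← lintegral_finsetSum _ (fun q _ => hm f _ hf)]
    refine lintegral_mono fun ζ => ?_
    simp only
    rw [sum_windows (fun y => ‖f (ζ, y)‖ₑ ^ 2) (-T) (1 / Λ) (by positivity) M]
    exact lintegral_mono_set hsub
  have k1 := (key _ (av_evo_meas e s hΦ hK)).trans (piece_main hΦ hK hl h (hT.trans_le hTT))
  have k2 := (key _ (osc_meas e s hΦ Λ hK)).trans (piece_osc hΦ hK hl hΛ h (hT.trans_le hTT))
  simp only [wen]
  rw [Finset.sum_add_distrib, ← Finset.mul_sum, ← Finset.mul_sum]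
  refine (add_le_add (mul_le_mul_right k1 _) (mul_le_mul_right k2 _)).trans (le_of_eq ?_)
  generalize ENNReal.ofReal s * ∫⁻ ξ, ‖K ξ‖ₑ ^ 2 = E
  rw [← two_mul, ← mul_assoc, ← mul_assoc, show (2 : ℝ≥0∞) = ENNReal.ofReal 2 by simp,
    ← ENNReal.ofReal_mul (by positivity), ← ENNReal.ofReal_mul (by positivity)]
  congr 2
  ring

/-- the part of `G` in the dyadic shell -/
noncomputable def dya (k : ℕ) (G : En n → ℂ) : En n → ℂ :=
  (shell n ((2 ^ k : ℕ) : ℝ) ((2 ^ (k + 1) : ℕ) : ℝ)).indicator G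

/-- the unit shells of the dyadic shell -/
noncomputable def pc (k i : ℕ) (G : En n → ℂ) : En n → ℂ :=
  (shell n ((2 ^ k + i : ℕ) : ℝ) ((2 ^ k + i + 1 : ℕ) : ℝ)).indicator (dya k G)

lemma sum_pc (k N : ℕ) {G : En n → ℂ} (hG : Measurable G) :
    ∑ i ∈ Finset.range N, ∫⁻ ξ, ‖pc k i G ξ‖ₑ ^ 2 ≤ ∫⁻ ξ, ‖G ξ‖ₑ ^ 2 := by
  have hm : ∀ i, Measurable fun ξ => ‖pc k i G ξ‖ₑ ^ 2 := fun i =>
    ((hG.indicator (shell_meas n _ _)).indicator (shell_meas n _ _)).enorm.pow_const 2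
  rw [← lintegral_finsetSum _ (fun i _ => hm i)]
  refine lintegral_mono fun ξ => ?_
  have h1 : ∀ i, ‖pc k i G ξ‖ₑ ^ 2 ≤ if ⌊‖ξ‖⌋₊ = 2 ^ k + i then ‖G ξ‖ₑ ^ 2 else 0 := by
    intro i
    classical
    simp only [pc, dya, Set.indicator, mem_shell_iff]
    split_ifs <;> simp
  refine (Finset.sum_le_sum fun i _ => h1 i).trans ?_
  by_cases h2 : ∃ i ∈ Finset.range N, ⌊‖ξ‖⌋₊ = 2 ^ k + i
  · obtain ⟨i₀, hi₀, h3⟩ := h2
    rw [Finset.sum_eq_single i₀]
    · split_ifs <;> simp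
    · intro j _ hj
      rw [if_neg]
      omega
    · intro h; exact absurd hi₀ h
  · push Not at h2
    rw [Finset.sum_eq_zero]
    · exact zero_le
    · intro i hi
      rw [if_neg (h2 i hi)]

/-- **few bad windows** -/
theorem level {e : En n} {s : ℝ} (hs : 0 < s) {Φ : En n → ℝ} {lam Λ : ℝ} {G : En n → ℂ}
    (hΦ : Measurable Φ) (hG : Measurable G) (hG2 : ∫⁻ ξ, ‖G ξ‖ₑ ^ 2 ≠ ⊤) (hl : 0 < lam)
    (hΛ : 1 ≤ Λ) (k : ℕ) (h : Expands e s Φ lam Λ (dya k G)) {T : ℝ} (hT : 0 < T)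
    {thr : ℝ} (hthr : 0 < thr) :
    ∃ bad : Finset ℝ, (bad.card : ℝ) ≤ 72 * Λ / lam * s * (∫⁻ ξ, ‖G ξ‖ₑ ^ 2).toReal / thr ∧
      ∀ t ∈ Icc (-T) T, (∀ a ∈ bad, t ∉ Icc a (a + 1 / Λ)) →
        ∑ i ∈ Finset.range (2 ^ (k + 1)), ∫⁻ ζ, ‖av e s (evo Φ t (pc k i G)) ζ‖ₑ ^ 2 ≤
          ENNReal.ofReal thr := by
  classical
  have hΛ0 : 0 < Λ := by linarith
  set M : ℕ := ⌊2 * T * Λ⌋₊ + 1 with hM
  set A : ℕ → ℝ := fun q => -T + q * (1 / Λ) with hA
  set D : ℝ → ℝ≥0∞ := fun a => ∑ i ∈ Finset.range (2 ^ (k + 1)), wen e s Φ Λ (pc k i G) a with hD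
  have hpm : ∀ i, Measurable (pc k i G) := fun i =>
    (hG.indicator (shell_meas n _ _)).indicator (shell_meas n _ _)
  have hMT : -T + M * (1 / Λ) ≤ T + 1 := by
    have h1 : (⌊2 * T * Λ⌋₊ : ℝ) ≤ 2 * T * Λ := Nat.floor_le (by positivity)
    have h2 : (M : ℝ) * (1 / Λ) ≤ (2 * T * Λ + 1) * (1 / Λ) := by
      refine mul_le_mul_of_nonneg_right ?_ (by positivity)
      rw [hM]
      push_cast
      linarith
    have h3 : (2 * T * Λ + 1) * (1 / Λ) = 2 * T + 1 / Λ := by field_simp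
    have h4 : 1 / Λ ≤ 1 := by rw [div_le_one hΛ0]; exact hΛ
    linarith
  set E := ∫⁻ ξ, ‖G ξ‖ₑ ^ 2 with hE
  have hsum : ∑ q ∈ Finset.range M, D (A q) ≤ ENNReal.ofReal (72 * Λ / lam * s * E.toReal) := by
    simp only [hD, hA]
    rw [Finset.sum_comm]
    calc ∑ i ∈ Finset.range (2 ^ (k + 1)), ∑ q ∈ Finset.range M,
          wen e s Φ Λ (pc k i G) (-T + q * (1 / Λ))
        ≤ ∑ i ∈ Finset.range (2 ^ (k + 1)),
          ENNReal.ofReal (72 * Λ / lam) * (ENNReal.ofReal s * ∫⁻ ξ, ‖pc k i G ξ‖ₑ ^ 2) :=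
          Finset.sum_le_sum fun i _ => sum_wen hΦ (hpm i) hl hΛ0 (h.ind _) hT
            (by linarith : T ≤ T + 1) hMT
      _ = ENNReal.ofReal (72 * Λ / lam) * (ENNReal.ofReal s *
          ∑ i ∈ Finset.range (2 ^ (k + 1)), ∫⁻ ξ, ‖pc k i G ξ‖ₑ ^ 2) := by
          rw [← Finset.mul_sum, ← Finset.mul_sum]
      _ ≤ ENNReal.ofReal (72 * Λ / lam) * (ENNReal.ofReal s * E) := by
          gcongr
          exact sum_pc k _ hG
      _ = _ := by
          rw [ENNReal.ofReal_mul (by positivity), ENNReal.ofReal_mul (by positivity),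
            ENNReal.ofReal_toReal hG2]
          ring
  set B : Finset ℕ := (Finset.range M).filter (fun q => ENNReal.ofReal thr < D (A q)) with hB
  refine ⟨B.image A, ?_, ?_⟩
  · have h1 : (B.card : ℝ≥0∞) * ENNReal.ofReal thr ≤
        ENNReal.ofReal (72 * Λ / lam * s * E.toReal) := by
      calc (B.card : ℝ≥0∞) * ENNReal.ofReal thr = ∑ _q ∈ B, ENNReal.ofReal thr := by
            rw [Finset.sum_const, nsmul_eq_mul]
        _ ≤ ∑ q ∈ B, D (A q) := Finset.sum_le_sum fun q hq => (Finset.mem_filter.1 hq).2.le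
        _ ≤ ∑ q ∈ Finset.range M, D (A q) := Finset.sum_le_sum_of_subset (Finset.filter_subset _ _)
        _ ≤ _ := hsum
    have h2 : (B.card : ℝ) * thr ≤ 72 * Λ / lam * s * E.toReal := by
      rw [← ENNReal.ofReal_natCast, ← ENNReal.ofReal_mul (by positivity)] at h1
      exact (ENNReal.ofReal_le_ofReal_iff (by positivity)).1 h1
    rw [le_div_iff₀ hthr]
    refine le_trans (mul_le_mul_of_nonneg_right ?_ hthr.le) h2
    exact_mod_cast Finset.card_image_le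
  · intro t ht hbad
    set q := ⌊(t + T) * Λ⌋₊ with hq
    have hnn : 0 ≤ (t + T) * Λ := mul_nonneg (by linarith [ht.1]) hΛ0.le
    have hqM : q < M := by
      rw [hM, Nat.lt_add_one_iff]
      refine Nat.floor_mono ?_
      exact mul_le_mul_of_nonneg_right (by linarith [ht.2]) hΛ0.le
    have h1 : (q : ℝ) ≤ (t + T) * Λ := Nat.floor_le hnn
    have h2 : (t + T) * Λ < q + 1 := Nat.lt_floor_add_one _
    have htq : t ∈ Icc (A q) (A q + 1 / Λ) := by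
      simp only [hA]
      constructor
      · have : (q : ℝ) * (1 / Λ) ≤ t + T := by
          rw [mul_one_div, div_le_iff₀ hΛ0]
          exact h1
        linarith
      · have : t + T ≤ q * (1 / Λ) + 1 / Λ := by
          have : (q : ℝ) * (1 / Λ) + 1 / Λ = (q + 1) / Λ := by ring
          rw [this, le_div_iff₀ hΛ0]
          exact h2.le
        linarith
    have hgood : ¬ ENNReal.ofReal thr < D (A q) := by
      intro h3
      refine hbad (A q) (Finset.mem_image.2 ⟨q, ?_, rfl⟩) htq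
      rw [hB, Finset.mem_filter, Finset.mem_range]
      exact ⟨hqM, h3⟩
    rw [not_lt] at hgood
    refine le_trans (Finset.sum_le_sum fun i _ => ?_) hgood
    exact piece_window hΦ (hpm i) hΛ0 (h.ind _) htq

end Pool.Agent.P8H68.DO
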