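import Pool.Agent.P8H68.DO.Rm

/-! A Sobolev inequality on short time windows. -/

set_option autoImplicit false

open MeasureTheory Complex Set
open scoped ENNReal NNReal

namespace Pool.Agent.P8H68.DO

lemma enn_add_sq (a b : ℝ≥0∞) : (a + b) ^ 2 ≤ 2 * a ^ 2 + 2 * b ^ 2 := by
  rcases eq_or_ne a ⊤ with rfl | ha
  · simp
  rcases eq_or_ne b ⊤ with rfl | hb
  · simp
  lift a to ℝ≥0 using ha
  lift b to ℝ≥0 using hb
  norm_cast
  rw [← NNReal.coe_le_coe]
  push_cast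
  nlinarith [sq_nonneg ((a : ℝ) - b)]

lemma lint_sq {α : Type*} [MeasurableSpace α] (μ : Measure α) {g : α → ℝ≥0∞}
    (hg : AEMeasurable g μ) : (∫⁻ y, g y ∂μ) ^ 2 ≤ μ univ * ∫⁻ y, g y ^ 2 ∂μ := by
  have h := ENNReal.lintegral_mul_le_Lp_mul_Lq μ (p := 2) (q := 2)
    (by rw [Real.holderConjugate_iff]; norm_num) (f := fun _ => 1) (g := g)
    aemeasurable_const hg
  simp only [Pi.mul_apply, one_mul, ENNReal.one_rpow, lintegral_one] at h
  have h2 : (∫⁻ y, g y ∂μ) ^ 2 ≤ ((μ univ) ^ (1 / 2 : ℝ) * (∫⁻ y, g y ^ (2 : ℝ) ∂μ) ^ (1 / 2 : ℝ)) ^ 2 :=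
    pow_le_pow_left' h 2
  refine h2.trans (le_of_eq ?_)
  rw [mul_pow, ← ENNReal.rpow_natCast, ← ENNReal.rpow_mul, ← ENNReal.rpow_natCast, ← ENNReal.rpow_mul]
  norm_num

theorem sob {f f' : ℝ → ℂ} (hf : ∀ t, HasDerivAt f (f' t) t) (hc : Continuous f') {a h : ℝ}
    (hh : 0 < h) {t : ℝ} (ht : t ∈ Icc a (a + h)) :
    ‖f t‖ₑ ^ 2 ≤ ENNReal.ofReal (2 / h) * (∫⁻ y in Icc a (a + h), ‖f y‖ₑ ^ 2) +
      ENNReal.ofReal (2 * h) * (∫⁻ y in Icc a (a + h), ‖f' y‖ₑ ^ 2) := by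
  set I := Icc a (a + h) with hI
  have hvol : volume I = ENNReal.ofReal h := by
    rw [hI, Real.volume_Icc]
    congr 1
    ring
  have hfc : Continuous f := continuous_iff_continuousAt.2 fun t => (hf t).continuousAt
  have h1 : ∀ u ∈ I, ‖f t‖ₑ ≤ ‖f u‖ₑ + ∫⁻ y in I, ‖f' y‖ₑ := by
    intro u hu
    have h2 : f t - f u = ∫ y in u..t, f' y :=
      (intervalIntegral.integral_eq_sub_of_hasDerivAt (fun y _ => hf y)
        (hc.intervalIntegrable _ _)).symm
    have h3 : ‖f t - f u‖ₑ ≤ ∫⁻ y in I, ‖f' y‖ₑ := by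
      rw [h2]
      have h4 : ‖∫ y in u..t, f' y‖ₑ ≤ ∫⁻ y in Set.uIoc u t, ‖f' y‖ₑ := by
        rw [← ofReal_norm, intervalIntegral.norm_intervalIntegral_eq, ofReal_norm]
        exact enorm_integral_le_lintegral_enorm _
      refine h4.trans (lintegral_mono_set ?_)
      intro y hy
      rw [Set.mem_uIoc] at hy
      rcases hy with hy | hy
      · exact ⟨hu.1.trans hy.1.le, hy.2.trans ht.2⟩
      · exact ⟨ht.1.trans hy.1.le, hy.2.trans hu.2⟩
    calc ‖f t‖ₑ = ‖f u + (f t - f u)‖ₑ := by ring_nf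
      _ ≤ ‖f u‖ₑ + ‖f t - f u‖ₑ := enorm_add_le _ _
      _ ≤ _ := by gcongr
  have h5 : ∀ u ∈ I, ‖f t‖ₑ ^ 2 ≤ 2 * ‖f u‖ₑ ^ 2 + 2 * (∫⁻ y in I, ‖f' y‖ₑ) ^ 2 := by
    intro u hu
    exact (pow_le_pow_left' (h1 u hu) 2).trans (enn_add_sq _ _)
  have h6 : ENNReal.ofReal h * ‖f t‖ₑ ^ 2 ≤ 2 * (∫⁻ y in I, ‖f y‖ₑ ^ 2) +
      ENNReal.ofReal h * (2 * (∫⁻ y in I, ‖f' y‖ₑ) ^ 2) := by
    have h7 := setLIntegral_mono' (μ := volume) (s := I) measurableSet_Icc
      (f := fun _ => ‖f t‖ₑ ^ 2) (g := fun u => 2 * ‖f u‖ₑ ^ 2 + 2 * (∫⁻ y in I, ‖f' y‖ₑ) ^ 2) h5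
    rw [setLIntegral_const, hvol, lintegral_add_right _ measurable_const, setLIntegral_const, hvol,
      lintegral_const_mul' _ _ (by simp)] at h7
    calc ENNReal.ofReal h * ‖f t‖ₑ ^ 2 = ‖f t‖ₑ ^ 2 * ENNReal.ofReal h := mul_comm _ _
      _ ≤ _ := h7
      _ = _ := by rw [mul_comm (2 * (∫⁻ y in I, ‖f' y‖ₑ) ^ 2)]
  have h8 : (∫⁻ y in I, ‖f' y‖ₑ) ^ 2 ≤ ENNReal.ofReal h * ∫⁻ y in I, ‖f' y‖ₑ ^ 2 := by
    have h9 := lint_sq (volume.restrict I) (g := fun y => ‖f' y‖ₑ) hc.measurable.enorm.aemeasurable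
    rwa [Measure.restrict_apply_univ, hvol] at h9
  have h0 : ENNReal.ofReal h ≠ 0 := by simpa using hh
  calc ‖f t‖ₑ ^ 2 = ENNReal.ofReal h⁻¹ * (ENNReal.ofReal h * ‖f t‖ₑ ^ 2) := by
        rw [← mul_assoc, ← ENNReal.ofReal_mul (by positivity), inv_mul_cancel₀ hh.ne']
        simp
    _ ≤ ENNReal.ofReal h⁻¹ * (2 * (∫⁻ y in I, ‖f y‖ₑ ^ 2) +
      ENNReal.ofReal h * (2 * (ENNReal.ofReal h * (∫⁻ y in I, ‖f' y‖ₑ ^ 2)))) := by
        refine mul_le_mul_right (h6.trans ?_) _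
        gcongr
    _ = _ := by
        rw [mul_add]
        congr 1
        · rw [← mul_assoc]
          congr 1
          rw [show (2 : ℝ≥0∞) = ENNReal.ofReal 2 by simp, ← ENNReal.ofReal_mul (by positivity)]
          congr 1
          field_simp
        · rw [← mul_assoc, ← mul_assoc, ← mul_assoc]
          congr 1
          rw [show (2 : ℝ≥0∞) = ENNReal.ofReal 2 by simp, ← ENNReal.ofReal_mul (by positivity),
            ← ENNReal.ofReal_mul (by positivity), ← ENNReal.ofReal_mul (by positivity)]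
          congr 1
          field_simp

/-- the time window inequality for oscillating integrals -/
theorem window {F : ℝ → ℂ} (hFm : Measurable F) {ψ : ℝ → ℝ} (hψ : Measurable ψ) (s c : ℝ)
    {Λ : ℝ} (hΛ : 0 < Λ) (hb : ∀ u ∈ Icc (0 : ℝ) s, F u ≠ 0 → |ψ u - c| ≤ Λ) {a t : ℝ}
    (ht : t ∈ Icc a (a + 1 / Λ)) :
    ‖∫ u in Icc (0 : ℝ) s, Complex.exp (((t * ψ u : ℝ) : ℂ) * I) * F u‖ₑ ^ 2 ≤
      ENNReal.ofReal (2 * Λ) * (∫⁻ y in Icc a (a + 1 / Λ),
        ‖∫ u in Icc (0 : ℝ) s, Complex.exp (((y * ψ u : ℝ) : ℂ) * I) * F u‖ₑ ^ 2) +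
      ENNReal.ofReal (2 * Λ) * (∫⁻ y in Icc a (a + 1 / Λ),
        ‖∫ u in Icc (0 : ℝ) s, Complex.exp (((y * ψ u : ℝ) : ℂ) * I) *
          (F u * (((ψ u - c) / Λ : ℝ) : ℂ))‖ₑ ^ 2) := by
  set μ := (volume : Measure ℝ).restrict (Icc (0 : ℝ) s) with hμ
  have hEn : ∀ (y : ℝ), ‖Complex.exp ((y : ℂ) * I)‖ = 1 := fun y => Complex.norm_exp_ofReal_mul_I _
  by_cases hF : Integrable F μ
  swap
  · have h0 : ∫ u, Complex.exp (((t * ψ u : ℝ) : ℂ) * I) * F u ∂μ = 0 := by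
      refine integral_undef fun h => hF ?_
      refine (integrable_norm_iff hFm.aestronglyMeasurable).1 ?_
      refine h.norm.congr (Filter.Eventually.of_forall fun u => ?_)
      simp only [norm_mul, hEn, one_mul]
    rw [h0]
    simp
  set f : ℝ → ℂ := fun y => ∫ u, Complex.exp (((y * (ψ u - c) : ℝ) : ℂ) * I) * F u ∂μ with hf
  set f' : ℝ → ℂ := fun y => ∫ u, Complex.exp (((y * (ψ u - c) : ℝ) : ℂ) * I) *
    (F u * (((ψ u - c : ℝ) : ℂ) * I)) ∂μ with hf'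
  have hmem : ∀ᵐ u ∂μ, u ∈ Icc (0 : ℝ) s := ae_restrict_mem measurableSet_Icc
  have hbd : ∀ᵐ u ∂μ, ‖F u * (((ψ u - c : ℝ) : ℂ) * I)‖ ≤ Λ * ‖F u‖ := by
    filter_upwards [hmem] with u hu
    rw [norm_mul, norm_mul, Complex.norm_I, mul_one, Complex.norm_real, Real.norm_eq_abs]
    rcases eq_or_ne (F u) 0 with h0 | h0
    · simp [h0]
    · rw [mul_comm]
      exact mul_le_mul_of_nonneg_right (hb u hu h0) (norm_nonneg _)
  have hm1 : ∀ y : ℝ, Measurable fun u => Complex.exp (((y * (ψ u - c) : ℝ) : ℂ) * I) := fun y =>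
    Complex.measurable_exp.comp ((Complex.measurable_ofReal.comp
      ((hψ.sub_const c).const_mul y)).mul_const I)
  have hm2 : Measurable fun u => F u * (((ψ u - c : ℝ) : ℂ) * I) :=
    hFm.mul ((Complex.measurable_ofReal.comp (hψ.sub_const c)).mul_const I)
  have hder : ∀ y, HasDerivAt f (f' y) y := by
    intro y
    refine (hasDerivAt_integral_of_dominated_loc_of_deriv_le (μ := μ)
      (F := fun y u => Complex.exp (((y * (ψ u - c) : ℝ) : ℂ) * I) * F u)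
      (F' := fun y u => Complex.exp (((y * (ψ u - c) : ℝ) : ℂ) * I) *
        (F u * (((ψ u - c : ℝ) : ℂ) * I)))
      (s := univ) (bound := fun u => Λ * ‖F u‖) Filter.univ_mem ?_ ?_ ?_ ?_ ?_ ?_).2
    · exact Filter.Eventually.of_forall fun y => ((hm1 y).mul hFm).aestronglyMeasurable
    · refine (hF.norm.mono' ((hm1 y).mul hFm).aestronglyMeasurable
        (Filter.Eventually.of_forall fun u => ?_))
      rw [norm_mul, hEn, one_mul]
    · exact ((hm1 y).mul hm2).aestronglyMeasurable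
    · filter_upwards [hbd] with u hu y _
      rw [norm_mul, hEn, one_mul]
      exact hu
    · exact hF.norm.const_mul Λ
    · refine Filter.Eventually.of_forall fun u y _ => ?_
      have h1 : HasDerivAt (fun y : ℝ => ((y * (ψ u - c) : ℝ) : ℂ) * I) (((ψ u - c : ℝ) : ℂ) * I) y := by
        have h2 : HasDerivAt (fun y : ℝ => y * (ψ u - c)) (ψ u - c) y := by
          simpa using (hasDerivAt_id y).mul_const (ψ u - c)
        exact h2.ofReal_comp.mul_const I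
      have h3 := (h1.cexp).mul_const (F u)
      exact h3.congr_deriv (by ring)
  have hcont : Continuous f' := by
    refine continuous_of_dominated (bound := fun u => Λ * ‖F u‖) ?_ ?_ (hF.norm.const_mul Λ) ?_
    · exact fun y => ((hm1 y).mul hm2).aestronglyMeasurable
    · intro y
      filter_upwards [hbd] with u hu
      rw [norm_mul, hEn, one_mul]
      exact hu
    · refine Filter.Eventually.of_forall fun u => ?_
      fun_prop
  have key := sob hder hcont (a := a) (h := 1 / Λ) (by positivity) ht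
  have e1 : ∀ y, ‖f y‖ₑ = ‖∫ u, Complex.exp (((y * ψ u : ℝ) : ℂ) * I) * F u ∂μ‖ₑ := by
    intro y
    have : f y = Complex.exp ((((-(y * c) : ℝ) : ℂ)) * I) *
        ∫ u, Complex.exp (((y * ψ u : ℝ) : ℂ) * I) * F u ∂μ := by
      rw [hf, ← integral_const_mul]
      refine integral_congr_ae (Filter.Eventually.of_forall fun u => ?_)
      simp only
      rw [← mul_assoc, ← Complex.exp_add]
      congr 2
      push_cast
      ring
    rw [this, ← ofReal_norm, ← ofReal_norm, norm_mul, hEn, one_mul]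
  have e2 : ∀ y, ‖f' y‖ₑ = ENNReal.ofReal Λ * ‖∫ u, Complex.exp (((y * ψ u : ℝ) : ℂ) * I) *
      (F u * (((ψ u - c) / Λ : ℝ) : ℂ)) ∂μ‖ₑ := by
    intro y
    have : f' y = (Complex.exp ((((-(y * c) : ℝ) : ℂ)) * I) * (I * (Λ : ℂ))) *
        ∫ u, Complex.exp (((y * ψ u : ℝ) : ℂ) * I) * (F u * (((ψ u - c) / Λ : ℝ) : ℂ)) ∂μ := by
      rw [hf', ← integral_const_mul]
      refine integral_congr_ae (Filter.Eventually.of_forall fun u => ?_)
      simp only
      have h1 : Complex.exp (((y * (ψ u - c) : ℝ) : ℂ) * I) =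
          Complex.exp ((((-(y * c) : ℝ) : ℂ)) * I) * Complex.exp (((y * ψ u : ℝ) : ℂ) * I) := by
        rw [← Complex.exp_add]
        congr 1
        push_cast
        ring
      rw [h1]
      have hΛ' : (Λ : ℂ) ≠ 0 := by exact_mod_cast hΛ.ne'
      push_cast
      field_simp
    rw [this, ← ofReal_norm, ← ofReal_norm, norm_mul, norm_mul, hEn, one_mul, norm_mul,
      Complex.norm_I, one_mul, Complex.norm_real, Real.norm_of_nonneg hΛ.le,
      ENNReal.ofReal_mul hΛ.le]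
  rw [← e1]
  simp_rw [← e1]
  refine key.trans ?_
  refine add_le_add (le_of_eq ?_) (le_of_eq ?_)
  · congr 2
    field_simp
  · simp_rw [e2, mul_pow]
    rw [lintegral_const_mul' _ _ (by simp), ← mul_assoc, ← ENNReal.ofReal_pow hΛ.le,
      ← ENNReal.ofReal_mul (by positivity)]
    congr 2
    field_simp

end Pool.Agent.P8H68.DO
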