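import Pool.Agent.Helper93.Sph.G
import Pool.Agent.H153R4.Pl
import Pool.Agent.P8H68.DO.Sob

/-! Local `L²` norms are controlled by short averages of the Fourier transform in one direction. -/

set_option autoImplicit false

open MeasureTheory Set Filter FourierTransform
open scoped ENNReal RealInnerProductSpace

namespace Pool.Agent.P8H68.DO

open Pool.Agent.Helper93.Sph (En ek Fi ek_norm ek_cont ek_int ek_add)

variable {n : ℕ}

lemma Fi_eq (f : En n → ℂ) (x : En n) : Fi f x = 𝓕 f (-x) := by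
  rw [Fi, Real.fourier_eq']
  refine integral_congr_ae (Eventually.of_forall fun ξ => ?_)
  simp only [ek, smul_eq_mul]
  congr 2
  rw [inner_neg_right, real_inner_comm]
  push_cast
  ring

lemma planch (f : En n → ℂ) (h1 : Integrable f) (h2 : MemLp f 2) :
    ∫⁻ x, ‖Fi f x‖ₑ ^ 2 = ∫⁻ x, ‖f x‖ₑ ^ 2 := by
  rw [← Pool.Agent.H153R4.plancherel f h1 h2]
  simp_rw [Fi_eq]
  exact lintegral_neg_eq_self (μ := (volume : Measure (En n))) (fun x => ‖𝓕 f x‖ₑ ^ 2)

/-- the short average in the direction `e` -/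
noncomputable def av (e : En n) (s : ℝ) (H : En n → ℂ) (ζ : En n) : ℂ :=
  ∫ u in Icc (0 : ℝ) s, H (ζ - u • e)

lemma shear_mp (e : En n) (μ : Measure ℝ) [SFinite μ] :
    MeasurePreserving (fun p : ℝ × En n => (p.1, p.2 - p.1 • e)) (μ.prod volume) (μ.prod volume) := by
  refine (MeasurePreserving.id μ).skew_product (g := fun u (ζ : En n) => ζ - u • e) ?_ ?_
  · exact (by fun_prop : Continuous fun p : ℝ × En n => p.2 - p.1 • e).measurable
  · refine Eventually.of_forall fun u => ?_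
    exact (measurePreserving_sub_right volume (u • e)).map_eq

lemma shear_int (e : En n) (s : ℝ) {H : En n → ℂ} (hH : Integrable H) :
    Integrable (fun p : ℝ × En n => H (p.2 - p.1 • e))
      ((volume.restrict (Icc (0 : ℝ) s)).prod volume) := by
  have h1 : Integrable (fun p : ℝ × En n => H p.2) ((volume.restrict (Icc (0 : ℝ) s)).prod volume) :=
    hH.comp_snd _
  exact (shear_mp e _).integrable_comp_of_integrable h1

lemma av_int (e : En n) (s : ℝ) {H : En n → ℂ} (hH : Integrable H) : Integrable (av e s H) :=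
  (shear_int e s hH).integral_prod_right

lemma av_sq_le (e : En n) {s : ℝ} (H : En n → ℂ) (hH : AEStronglyMeasurable H) :
    ∀ᵐ ζ : En n, ‖av e s H ζ‖ₑ ^ 2 ≤ ENNReal.ofReal s *
      ∫⁻ u in Icc (0 : ℝ) s, ‖H (ζ - u • e)‖ₑ ^ 2 := by
  have h1 : AEStronglyMeasurable (fun p : ℝ × En n => H (p.2 - p.1 • e))
      ((volume.restrict (Icc (0 : ℝ) s)).prod volume) :=
    (hH.comp_quasiMeasurePreserving Measure.quasiMeasurePreserving_snd).comp_quasiMeasurePreserving
      (shear_mp e _).quasiMeasurePreserving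
  have h2 := h1.prod_swap.prodMk_left
  filter_upwards [h2] with ζ hζ
  have h3 := lint_sq (volume.restrict (Icc (0 : ℝ) s)) (g := fun u => ‖H (ζ - u • e)‖ₑ) hζ.enorm
  rw [Measure.restrict_apply_univ, Real.volume_Icc, sub_zero] at h3
  refine le_trans (pow_le_pow_left' ?_ 2) h3
  exact enorm_integral_le_lintegral_enorm _

/-- averages over translates -/
lemma av_fub (e : En n) (s : ℝ) {g : En n → ℝ≥0∞} (hg : AEMeasurable g) :
    ∫⁻ ζ, ∫⁻ u in Icc (0 : ℝ) s, g (ζ - u • e) = ENNReal.ofReal s * ∫⁻ ζ, g ζ := by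
  have h1 : AEMeasurable (fun p : ℝ × En n => g (p.2 - p.1 • e))
      ((volume.restrict (Icc (0 : ℝ) s)).prod volume) :=
    (hg.comp_quasiMeasurePreserving Measure.quasiMeasurePreserving_snd).comp_quasiMeasurePreserving
      (shear_mp e _).quasiMeasurePreserving
  rw [lintegral_lintegral_swap (f := fun ζ u => g (ζ - u • e)) h1.prod_swap]
  have h2 : ∀ u : ℝ, ∫⁻ ζ, g (ζ - u • e) = ∫⁻ ζ, g ζ := fun u =>
    lintegral_sub_right_eq_self (μ := (volume : Measure (En n))) g (u • e)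
  simp_rw [h2]
  rw [lintegral_const, Measure.restrict_apply_univ, Real.volume_Icc, sub_zero, mul_comm]

lemma av_memLp (e : En n) {s : ℝ} (hs : 0 ≤ s) {H : En n → ℂ} (h1 : Integrable H) (h2 : MemLp H 2) :
    MemLp (av e s H) 2 := by
  refine ⟨(av_int e s h1).aestronglyMeasurable, ?_⟩
  rw [eLpNorm_lt_top_iff_lintegral_rpow_enorm_lt_top (by norm_num) (by norm_num)]
  simp only [ENNReal.toReal_ofNat, ENNReal.rpow_ofNat]
  have h3 : ∫⁻ ζ, ‖H ζ‖ₑ ^ 2 < ⊤ := by
    have := h2.eLpNorm_lt_top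
    rw [eLpNorm_lt_top_iff_lintegral_rpow_enorm_lt_top (by norm_num) (by norm_num)] at this
    simpa using this
  refine (lintegral_mono_ae (av_sq_le e H h1.aestronglyMeasurable)).trans_lt ?_
  rw [lintegral_const_mul' _ _ ENNReal.ofReal_ne_top,
    av_fub e s (h1.aestronglyMeasurable.enorm.pow_const 2)]
  exact ENNReal.mul_lt_top ENNReal.ofReal_lt_top (ENNReal.mul_lt_top ENNReal.ofReal_lt_top h3)

lemma Fi_av (e : En n) (s : ℝ) {H : En n → ℂ} (h1 : Integrable H) (x : En n) :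
    Fi (av e s H) x = (∫ u in Icc (0 : ℝ) s, ek x (u • e)) * Fi H x := by
  have hint : Integrable (fun p : ℝ × En n => ek x p.2 * H (p.2 - p.1 • e))
      ((volume.restrict (Icc (0 : ℝ) s)).prod volume) := by
    refine (shear_int e s h1).bdd_mul (c := 1) ?_ ?_
    · exact (ek_cont.comp (by fun_prop : Continuous fun p : ℝ × En n => (x, p.2))).aestronglyMeasurable
    · exact Eventually.of_forall fun p => (ek_norm x p.2).le
  have e1 : Fi (av e s H) x = ∫ ζ, ∫ u in Icc (0 : ℝ) s, ek x ζ * H (ζ - u • e) := by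
    rw [Fi]
    refine integral_congr_ae (Eventually.of_forall fun ζ => ?_)
    simp only [av]
    rw [integral_const_mul]
  have e2 : ∫ ζ, ∫ u in Icc (0 : ℝ) s, ek x ζ * H (ζ - u • e) =
      ∫ u in Icc (0 : ℝ) s, ∫ ζ, ek x ζ * H (ζ - u • e) :=
    integral_integral_swap (f := fun ζ u => ek x ζ * H (ζ - u • e)) hint.swap
  have e3 : ∀ u : ℝ, ∫ ζ, ek x ζ * H (ζ - u • e) = ek x (u • e) * Fi H x := by
    intro u
    have h := integral_sub_right_eq_self (μ := (volume : Measure (En n)))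
      (fun ζ => ek x (ζ + u • e) * H ζ) (u • e)
    simp only [sub_add_cancel] at h
    rw [h, Fi, ← integral_const_mul]
    refine integral_congr_ae (Eventually.of_forall fun ζ => ?_)
    simp only
    have : ek x (ζ + u • e) = ek x ζ * ek x (u • e) := by
      rw [ek, ek, ek, ← Complex.exp_add, inner_add_right]
      congr 1
      push_cast
      ring
    rw [this]
    ring
  rw [e1, e2]
  simp_rw [e3]
  rw [integral_mul_const]

lemma mult_lower (e : En n) (he : ‖e‖ = 1) {s ρ : ℝ} (hs : 0 < s) (hρ : 7 * ρ * s ≤ 1) {x : En n}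
    (hx : ‖x‖ ≤ ρ) : s / 2 ≤ ‖∫ u in Icc (0 : ℝ) s, ek x (u • e)‖ := by
  have hcont : Continuous fun u : ℝ => ek x (u • e) :=
    ek_cont.comp (by fun_prop : Continuous fun u : ℝ => (x, u • e))
  have hint : IntegrableOn (fun u : ℝ => ek x (u • e)) (Icc 0 s) := hcont.integrableOn_Icc
  have h1 : (∫ u in Icc (0 : ℝ) s, ek x (u • e)).re = ∫ u in Icc (0 : ℝ) s, (ek x (u • e)).re :=
    (integral_re (𝕜 := ℂ) hint).symm
  have h2 : ∀ u ∈ Icc (0 : ℝ) s, (1 / 2 : ℝ) ≤ (ek x (u • e)).re := by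
    intro u hu
    have h3 : (ek x (u • e)).re = Real.cos (2 * Real.pi * ⟪x, u • e⟫) := by
      rw [ek, show 2 * (Real.pi : ℂ) * Complex.I * ((⟪x, u • e⟫ : ℝ) : ℂ) =
        ((2 * Real.pi * ⟪x, u • e⟫ : ℝ) : ℂ) * Complex.I by push_cast; ring,
        Complex.exp_ofReal_mul_I_re]
    rw [h3]
    have h4 : |⟪x, u • e⟫| ≤ ρ * s := by
      refine (abs_real_inner_le_norm _ _).trans ?_
      rw [norm_smul, he, mul_one, Real.norm_of_nonneg hu.1]
      exact mul_le_mul hx hu.2 hu.1 ((norm_nonneg _).trans hx)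
    have h5 : |2 * Real.pi * ⟪x, u • e⟫| ≤ 1 := by
      rw [abs_mul, abs_of_pos Real.two_pi_pos]
      have h6 := Real.pi_lt_d2
      have h7 : 0 ≤ ρ * s := (abs_nonneg _).trans h4
      nlinarith [Real.pi_pos]
    have h8 := Real.one_sub_sq_div_two_le_cos (x := 2 * Real.pi * ⟪x, u • e⟫)
    have h9 : (2 * Real.pi * ⟪x, u • e⟫) ^ 2 ≤ 1 := by
      rw [← sq_abs]
      exact pow_le_one₀ (abs_nonneg _) h5
    linarith
  have h10 : s / 2 ≤ ∫ u in Icc (0 : ℝ) s, (ek x (u • e)).re := by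
    have h11 : ∫ u in Icc (0 : ℝ) s, (1 / 2 : ℝ) = s / 2 := by
      rw [setIntegral_const]
      simp [Real.volume_real_Icc_of_le hs.le]
      ring
    rw [← h11]
    exact setIntegral_mono_on (integrableOn_const (by simp)) hint.re measurableSet_Icc h2
  calc s / 2 ≤ (∫ u in Icc (0 : ℝ) s, ek x (u • e)).re := by rw [h1]; exact h10
    _ ≤ _ := Complex.re_le_norm _

/-- **local `L²` norm** -/
theorem loc (e : En n) (he : ‖e‖ = 1) {s ρ : ℝ} (hs : 0 < s) (hρ : 7 * ρ * s ≤ 1)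
    {H : En n → ℂ} (h1 : Integrable H) (h2 : MemLp H 2) :
    ∫⁻ x in Metric.closedBall (0 : En n) ρ, ‖Fi H x‖ₑ ^ 2 ≤
      ENNReal.ofReal (4 / s ^ 2) * ∫⁻ ζ, ‖av e s H ζ‖ₑ ^ 2 := by
  rw [← planch _ (av_int e s h1) (av_memLp e hs.le h1 h2),
    ← lintegral_const_mul' _ _ ENNReal.ofReal_ne_top]
  refine (setLIntegral_mono' measurableSet_closedBall fun x hx => ?_).trans
    (setLIntegral_le_lintegral _ _)
  rw [Metric.mem_closedBall, dist_zero_right] at hx
  rw [Fi_av e s h1, enorm_mul, mul_pow, ← mul_assoc]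
  have h3 := mult_lower e he hs hρ hx
  refine le_mul_of_one_le_left' ?_
  rw [enorm_sq_eq, ← ENNReal.ofReal_mul (by positivity), ← ENNReal.ofReal_one]
  refine ENNReal.ofReal_le_ofReal ?_
  have h4 : (s / 2) ^ 2 ≤ ‖∫ u in Icc (0 : ℝ) s, ek x (u • e)‖ ^ 2 :=
    pow_le_pow_left₀ (by positivity) h3 2
  calc (1 : ℝ) = 4 / s ^ 2 * (s / 2) ^ 2 := by field_simp; norm_num
    _ ≤ _ := mul_le_mul_of_nonneg_left h4 (by positivity)

end Pool.Agent.P8H68.DO
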