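import Pool.Agent.P8H68.DO.Loc

/-! Almost orthogonality of the shells of width one. -/

set_option autoImplicit false

open MeasureTheory Set Filter
open scoped ENNReal RealInnerProductSpace

namespace Pool.Agent.P8H68.DO

open Pool.Agent.Helper93.Sph (En ek Fi shell shell_meas)

variable {n : ℕ}

lemma mem_shell_iff (m : ℕ) (ξ : En n) : ξ ∈ shell n (m : ℝ) ((m + 1 : ℕ) : ℝ) ↔ ⌊‖ξ‖⌋₊ = m := by
  rw [Nat.floor_eq_iff (norm_nonneg _)]
  simp [shell]

lemma mem_shell_iff' (a b : ℕ) (ξ : En n) :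
    ξ ∈ shell n (a : ℝ) (b : ℝ) ↔ a ≤ ⌊‖ξ‖⌋₊ ∧ ⌊‖ξ‖⌋₊ < b := by
  rw [Nat.le_floor_iff (norm_nonneg _), Nat.floor_lt (norm_nonneg _)]
  simp [shell]

/-- a short segment meets at most two shells -/
lemma two_shells (e : En n) (he : ‖e‖ = 1) {s : ℝ} (hs2 : s ≤ 1 / 2) (ζ : En n) :
    ∃ m₀ : ℕ, ∀ u ∈ Icc (0 : ℝ) s, ⌊‖ζ - u • e‖⌋₊ = m₀ ∨ ⌊‖ζ - u • e‖⌋₊ = m₀ + 1 := by
  refine ⟨⌊‖ζ‖ - s⌋₊, fun u hu => ?_⟩
  have h1 : ‖u • e‖ ≤ s := by
    rw [norm_smul, he, mul_one, Real.norm_of_nonneg hu.1]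
    exact hu.2
  have h2 : ‖ζ‖ - s ≤ ‖ζ - u • e‖ := by
    have := norm_sub_norm_le ζ (u • e)
    linarith
  have h3 : ‖ζ - u • e‖ ≤ ‖ζ‖ + s := by
    have := norm_sub_le ζ (u • e)
    linarith
  have h4 : ⌊‖ζ‖ - s⌋₊ ≤ ⌊‖ζ - u • e‖⌋₊ := Nat.floor_mono h2
  have h5 : ⌊‖ζ - u • e‖⌋₊ < ⌊‖ζ‖ - s⌋₊ + 2 := by
    rw [Nat.floor_lt (norm_nonneg _)]
    have h6 := Nat.lt_floor_add_one (‖ζ‖ - s)
    push_cast
    linarith
  omega

theorem orth (e : En n) (he : ‖e‖ = 1) {s : ℝ} (hs2 : s ≤ 1 / 2)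
    {H : En n → ℂ} (hH : Integrable H) (a b : ℕ) :
    ∫⁻ ζ, ‖av e s ((shell n (a : ℝ) (b : ℝ)).indicator H) ζ‖ₑ ^ 2 ≤
      2 * ∑ m ∈ Finset.Ico a b,
        ∫⁻ ζ, ‖av e s ((shell n (m : ℝ) ((m + 1 : ℕ) : ℝ)).indicator H) ζ‖ₑ ^ 2 := by
  have hmeas : ∀ m : ℕ, AEMeasurable (fun ζ =>
      ‖av e s ((shell n (m : ℝ) ((m + 1 : ℕ) : ℝ)).indicator H) ζ‖ₑ ^ 2) := fun m =>
    (av_int e s (hH.indicator (shell_meas n _ _))).aestronglyMeasurable.enorm.pow_const 2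
  rw [← lintegral_finsetSum' _ (fun m _ => hmeas m), ← lintegral_const_mul' _ _ (by simp)]
  refine lintegral_mono_ae ?_
  have h1 := (shear_int e s hH).swap.prod_right_ae
  filter_upwards [h1] with ζ hζ
  have hζ' : Integrable (fun u : ℝ => H (ζ - u • e)) (volume.restrict (Icc (0 : ℝ) s)) := hζ
  obtain ⟨m₀, hm₀⟩ := two_shells e he hs2 ζ
  set w : ℕ → ℂ := fun m => av e s ((shell n (m : ℝ) ((m + 1 : ℕ) : ℝ)).indicator H) ζ with hw
  have hpre : ∀ A : Set (En n), MeasurableSet A →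
      MeasurableSet ((fun u : ℝ => ζ - u • e) ⁻¹' A) := fun A hA =>
    (by fun_prop : Continuous fun u : ℝ => ζ - u • e).measurable hA
  have hint : ∀ m : ℕ, Integrable (fun u : ℝ =>
      (shell n (m : ℝ) ((m + 1 : ℕ) : ℝ)).indicator H (ζ - u • e))
      (volume.restrict (Icc (0 : ℝ) s)) := fun m =>
    hζ'.indicator (hpre _ (shell_meas n _ _))
  have key : av e s ((shell n (a : ℝ) (b : ℝ)).indicator H) ζ =
      (if m₀ ∈ Finset.Ico a b then w m₀ else 0) + (if m₀ + 1 ∈ Finset.Ico a b then w (m₀ + 1) else 0) := by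
    have e1 : av e s ((shell n (a : ℝ) (b : ℝ)).indicator H) ζ =
        ∫ u in Icc (0 : ℝ) s,
          ((if m₀ ∈ Finset.Ico a b then
            (shell n (m₀ : ℝ) ((m₀ + 1 : ℕ) : ℝ)).indicator H (ζ - u • e) else 0) +
          (if m₀ + 1 ∈ Finset.Ico a b then
            (shell n ((m₀ + 1 : ℕ) : ℝ) ((m₀ + 1 + 1 : ℕ) : ℝ)).indicator H (ζ - u • e) else 0)) := by
      rw [av]
      refine setIntegral_congr_fun measurableSet_Icc fun u hu => ?_
      simp only [Set.indicator, mem_shell_iff, mem_shell_iff', Finset.mem_Ico]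
      rcases hm₀ u hu with h | h
      · have : ¬ (⌊‖ζ - u • e‖⌋₊ = m₀ + 1) := by omega
        simp [h]
      · simp [h]
    rw [e1, integral_add]
    · congr 1
      · split_ifs
        · rfl
        · simp
      · split_ifs
        · rfl
        · simp
    · split_ifs
      · exact hint m₀
      · exact integrable_zero _ _ _
    · split_ifs
      · exact hint (m₀ + 1)
      · exact integrable_zero _ _ _
  rw [key]
  refine (pow_le_pow_left' (enorm_add_le _ _) 2).trans ((enn_add_sq _ _).trans ?_)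
  rw [← mul_add]
  refine mul_le_mul_right ?_ _
  by_cases h2 : m₀ ∈ Finset.Ico a b
  · by_cases h3 : m₀ + 1 ∈ Finset.Ico a b
    · rw [if_pos h2, if_pos h3]
      have h4 : ({m₀, m₀ + 1} : Finset ℕ) ⊆ Finset.Ico a b := by
        intro x hx
        simp only [Finset.mem_insert, Finset.mem_singleton] at hx
        rcases hx with rfl | rfl
        · exact h2
        · exact h3
      calc ‖w m₀‖ₑ ^ 2 + ‖w (m₀ + 1)‖ₑ ^ 2 = ∑ m ∈ ({m₀, m₀ + 1} : Finset ℕ), ‖w m‖ₑ ^ 2 := by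
            rw [Finset.sum_pair (by omega)]
        _ ≤ _ := Finset.sum_le_sum_of_subset h4
    · rw [if_pos h2, if_neg h3]
      simp only [enorm_zero, ne_eq, OfNat.ofNat_ne_zero, not_false_eq_true, zero_pow, add_zero]
      exact Finset.single_le_sum (f := fun m => ‖w m‖ₑ ^ 2) (fun _ _ => zero_le) h2
  · by_cases h3 : m₀ + 1 ∈ Finset.Ico a b
    · rw [if_neg h2, if_pos h3]
      simp only [enorm_zero, ne_eq, OfNat.ofNat_ne_zero, not_false_eq_true, zero_pow, zero_add]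
      exact Finset.single_le_sum (f := fun m => ‖w m‖ₑ ^ 2) (fun _ _ => zero_le) h3
    · rw [if_neg h2, if_neg h3]
      simp

end Pool.Agent.P8H68.DO
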