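import Mathlib

/-! Mean values over time of `∫ F(a) exp(i t φ(a)) da` for expanding phases. -/

set_option autoImplicit false

open MeasureTheory Complex Set
open scoped ENNReal

namespace Pool.Agent.P8H68.DO

/-- the Gaussian kernel -/
noncomputable def gk (ε t : ℝ) : ℝ :=
  Real.sqrt (Real.pi / ε) * Real.exp (-(1 / (4 * ε)) * t ^ 2)

theorem gk_nonneg (ε t : ℝ) : 0 ≤ gk ε t := by
  unfold gk
  positivity

theorem gk_cont (ε : ℝ) : Continuous (gk ε) := by
  unfold gk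
  fun_prop

theorem gk_fourier (ε : ℝ) (hε : 0 < ε) (t : ℝ) :
    ∫ y : ℝ, ((Real.exp (-ε * y ^ 2) : ℝ) : ℂ) * Complex.exp (((y * t : ℝ) : ℂ) * I) =
      (gk ε t : ℂ) := by
  have h := fourierIntegral_gaussian (b := (ε : ℂ)) (by simpa using hε) (t : ℂ)
  have e1 : ∀ y : ℝ, ((Real.exp (-ε * y ^ 2) : ℝ) : ℂ) * Complex.exp (((y * t : ℝ) : ℂ) * I) =
      cexp (I * (t : ℂ) * y) * cexp (-(ε : ℂ) * y ^ 2) := by
    intro y
    rw [mul_comm (cexp _), Complex.ofReal_exp]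
    congr 2
    · push_cast
      ring
    · push_cast
      ring
  simp_rw [e1]
  rw [h, gk]
  push_cast
  congr 1
  · rw [Real.sqrt_eq_rpow, Complex.ofReal_cpow (by positivity)]
    push_cast
    ring_nf
  · congr 1
    have : (ε : ℂ) ≠ 0 := by exact_mod_cast hε.ne'
    field_simp

theorem gk_integrable {ε : ℝ} (hε : 0 < ε) : Integrable (gk ε) := by
  unfold gk
  exact (integrable_exp_neg_mul_sq (by positivity)).const_mul _

theorem gk_integral {ε : ℝ} (hε : 0 < ε) : ∫ t, gk ε t = 2 * Real.pi := by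
  unfold gk
  rw [integral_const_mul, integral_gaussian, ← Real.sqrt_mul (by positivity)]
  have : Real.pi / ε * (Real.pi / (1 / (4 * ε))) = (2 * Real.pi) ^ 2 := by
    field_simp
    ring
  rw [this, Real.sqrt_sq (by positivity)]

/-- the kernel decreases in `|t|` -/
theorem gk_anti {ε : ℝ} (hε : 0 < ε) {a b : ℝ} (h : |a| ≤ |b|) : gk ε b ≤ gk ε a := by
  unfold gk
  refine mul_le_mul_of_nonneg_left (Real.exp_le_exp.2 ?_) (Real.sqrt_nonneg _)
  have h1 : a ^ 2 ≤ b ^ 2 := sq_le_sq.2 h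
  have h2 : 0 < 1 / (4 * ε) := by positivity
  nlinarith

theorem gk_scaled {ε lam : ℝ} (hε : 0 < ε) (hl : 0 < lam) (a : ℝ) :
    ∫⁻ v, ENNReal.ofReal (gk ε (lam * (a - v))) = ENNReal.ofReal (2 * Real.pi / lam) := by
  have h0 := lintegral_sub_left_eq_self (μ := (volume : Measure ℝ))
    (fun v => ENNReal.ofReal (gk ε (lam * v))) a
  rw [h0, ← ofReal_integral_eq_lintegral_ofReal ((gk_integrable hε).comp_mul_left' hl.ne')
      (Filter.Eventually.of_forall fun v => gk_nonneg ε _)]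
  rw [Measure.integral_comp_mul_left, gk_integral hε, abs_of_pos (by positivity), smul_eq_mul]
  congr 1
  field_simp

/-- Gaussian time average -/
theorem pair {α : Type*} [MeasurableSpace α] (μ : Measure α) [SFinite μ] {F : α → ℂ}
    (hF : Integrable F μ) {ψ : α → ℝ} (hψ : Measurable ψ) {ε : ℝ} (hε : 0 < ε) :
    ∫⁻ y : ℝ, ENNReal.ofReal (Real.exp (-ε * y ^ 2) *
        ‖∫ c, Complex.exp (((y * ψ c : ℝ) : ℂ) * I) * F c ∂μ‖ ^ 2) ≤
      ∫⁻ q : α × α, ENNReal.ofReal (‖F q.1‖ * ‖F q.2‖ * gk ε (ψ q.1 - ψ q.2)) ∂(μ.prod μ) := by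
  set G : ℝ → ℂ := fun y => ∫ c, Complex.exp (((y * ψ c : ℝ) : ℂ) * I) * F c ∂μ with hG
  have hEm : Measurable fun q : ℝ × α => Complex.exp (((q.1 * ψ q.2 : ℝ) : ℂ) * I) :=
    Complex.measurable_exp.comp ((Complex.measurable_ofReal.comp
      (measurable_fst.mul (hψ.comp measurable_snd))).mul_const I)
  have hEn : ∀ (y : ℝ) (c : α), ‖Complex.exp (((y * ψ c : ℝ) : ℂ) * I)‖ = 1 := by
    intro y c
    exact Complex.norm_exp_ofReal_mul_I _
  have hGm : AEStronglyMeasurable G := by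
    have h : AEStronglyMeasurable (fun q : ℝ × α =>
        Complex.exp (((q.1 * ψ q.2 : ℝ) : ℂ) * I) * F q.2) (volume.prod μ) :=
      hEm.aestronglyMeasurable.mul
        (hF.aestronglyMeasurable.comp_quasiMeasurePreserving Measure.quasiMeasurePreserving_snd)
    exact h.integral_prod_right'
  have hGb : ∀ y, ‖G y‖ ≤ ∫ c, ‖F c‖ ∂μ := by
    intro y
    refine (norm_integral_le_integral_norm _).trans (le_of_eq ?_)
    refine integral_congr_ae (Filter.Eventually.of_forall fun c => ?_)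
    simp only [norm_mul, hEn, one_mul]
  have hgi : Integrable fun y : ℝ => Real.exp (-ε * y ^ 2) := integrable_exp_neg_mul_sq hε
  have hint : Integrable fun y : ℝ => Real.exp (-ε * y ^ 2) * ‖G y‖ ^ 2 := by
    refine hgi.mul_bdd (c := (∫ c, ‖F c‖ ∂μ) ^ 2) ?_ ?_
    · exact hGm.norm.pow 2
    · refine Filter.Eventually.of_forall fun x => ?_
      rw [Real.norm_of_nonneg (by positivity)]
      exact pow_le_pow_left₀ (norm_nonneg _) (hGb x) 2
  rw [← ofReal_integral_eq_lintegral_ofReal hint (Filter.Eventually.of_forall fun y => by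
    positivity)]
  -- the triple integrand
  set H : ℝ → α × α → ℂ := fun y q => ((Real.exp (-ε * y ^ 2) : ℝ) : ℂ) *
    ((Complex.exp (((y * ψ q.1 : ℝ) : ℂ) * I) * F q.1) *
      (starRingEnd ℂ) (Complex.exp (((y * ψ q.2 : ℝ) : ℂ) * I) * F q.2)) with hH
  have hHint : Integrable (Function.uncurry H) ((volume : Measure ℝ).prod (μ.prod μ)) := by
    have h1 : Integrable (fun z : ℝ × (α × α) => Real.exp (-ε * z.1 ^ 2) * (‖F z.2.1‖ * ‖F z.2.2‖))
        ((volume : Measure ℝ).prod (μ.prod μ)) :=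
      hgi.mul_prod (hF.norm.mul_prod hF.norm)
    refine h1.mono' ?_ (Filter.Eventually.of_forall fun z => ?_)
    · have q1 : Measure.QuasiMeasurePreserving (fun p : ℝ × (α × α) => p.2.1)
          (volume.prod (μ.prod μ)) μ :=
        Measure.quasiMeasurePreserving_fst.comp Measure.quasiMeasurePreserving_snd
      have q2 : Measure.QuasiMeasurePreserving (fun p : ℝ × (α × α) => p.2.2)
          (volume.prod (μ.prod μ)) μ :=
        Measure.quasiMeasurePreserving_snd.comp Measure.quasiMeasurePreserving_snd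
      have m1 : AEStronglyMeasurable (fun z : ℝ × (α × α) =>
          Complex.exp (((z.1 * ψ z.2.1 : ℝ) : ℂ) * I) * F z.2.1) (volume.prod (μ.prod μ)) :=
        (hEm.comp (measurable_fst.prodMk (measurable_fst.comp measurable_snd))).aestronglyMeasurable.mul
          (hF.aestronglyMeasurable.comp_quasiMeasurePreserving q1)
      have m2 : AEStronglyMeasurable (fun z : ℝ × (α × α) =>
          Complex.exp (((z.1 * ψ z.2.2 : ℝ) : ℂ) * I) * F z.2.2) (volume.prod (μ.prod μ)) :=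
        (hEm.comp (measurable_fst.prodMk (measurable_snd.comp measurable_snd))).aestronglyMeasurable.mul
          (hF.aestronglyMeasurable.comp_quasiMeasurePreserving q2)
      have m3 : Measurable fun z : ℝ × (α × α) => ((Real.exp (-ε * z.1 ^ 2) : ℝ) : ℂ) := by
        fun_prop
      exact m3.aestronglyMeasurable.mul
        (m1.mul (Complex.continuous_conj.comp_aestronglyMeasurable m2))
    · obtain ⟨y, q⟩ := z
      simp only [Function.uncurry, hH]
      rw [norm_mul, norm_mul, norm_mul, RCLike.norm_conj, norm_mul, hEn, hEn, one_mul, one_mul,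
        Complex.norm_real, Real.norm_of_nonneg (Real.exp_pos _).le]
  have hval : ((∫ y : ℝ, Real.exp (-ε * y ^ 2) * ‖G y‖ ^ 2 : ℝ) : ℂ) =
      ∫ q : α × α, F q.1 * (starRingEnd ℂ) (F q.2) * (gk ε (ψ q.1 - ψ q.2) : ℂ)
        ∂(μ.prod μ) := by
    calc ((∫ y : ℝ, Real.exp (-ε * y ^ 2) * ‖G y‖ ^ 2 : ℝ) : ℂ)
        = ∫ y : ℝ, ((Real.exp (-ε * y ^ 2) * ‖G y‖ ^ 2 : ℝ) : ℂ) := integral_ofReal.symm
      _ = ∫ y : ℝ, ∫ q : α × α, H y q ∂(μ.prod μ) := by
          refine integral_congr_ae (Filter.Eventually.of_forall fun y => ?_)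
          simp only [hH]
          rw [integral_const_mul, integral_prod_mul
            (fun c => Complex.exp (((y * ψ c : ℝ) : ℂ) * I) * F c)
            (fun c => (starRingEnd ℂ) (Complex.exp (((y * ψ c : ℝ) : ℂ) * I) * F c)),
            integral_conj]
          rw [Complex.ofReal_mul]
          congr 1
          have : G y * (starRingEnd ℂ) (G y) = ((‖G y‖ ^ 2 : ℝ) : ℂ) := by
            rw [Complex.mul_conj, Complex.normSq_eq_norm_sq]
          exact this.symm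
      _ = ∫ q : α × α, (∫ y : ℝ, H y q) ∂(μ.prod μ) :=
          integral_integral_swap hHint
      _ = _ := by
          refine integral_congr_ae (Filter.Eventually.of_forall fun q => ?_)
          simp only
          rw [← gk_fourier ε hε, ← integral_const_mul]
          refine integral_congr_ae (Filter.Eventually.of_forall fun y => ?_)
          simp only [hH]
          have e1 : (starRingEnd ℂ) (Complex.exp (((y * ψ q.2 : ℝ) : ℂ) * I)) =
              Complex.exp (-((y * ψ q.2 : ℝ) : ℂ) * I) := by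
            rw [← Complex.exp_conj]
            congr 1
            simp
          have e2 : Complex.exp (((y * (ψ q.1 - ψ q.2) : ℝ) : ℂ) * I) =
              Complex.exp (((y * ψ q.1 : ℝ) : ℂ) * I) * Complex.exp (-((y * ψ q.2 : ℝ) : ℂ) * I) := by
            rw [← Complex.exp_add]
            congr 1
            push_cast
            ring
          rw [map_mul, e1, e2]
          ring
  have hnn : 0 ≤ ∫ y : ℝ, Real.exp (-ε * y ^ 2) * ‖G y‖ ^ 2 :=
    integral_nonneg fun y => by positivity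
  have h1 : ENNReal.ofReal (∫ y : ℝ, Real.exp (-ε * y ^ 2) * ‖G y‖ ^ 2) =
      ‖((∫ y : ℝ, Real.exp (-ε * y ^ 2) * ‖G y‖ ^ 2 : ℝ) : ℂ)‖ₑ := by
    rw [← ofReal_norm, Complex.norm_real, Real.norm_of_nonneg hnn]
  rw [h1, hval]
  refine (enorm_integral_le_lintegral_enorm _).trans (le_of_eq ?_)
  refine lintegral_congr fun q => ?_
  rw [← ofReal_norm, norm_mul, norm_mul, RCLike.norm_conj, Complex.norm_real,
    Real.norm_of_nonneg (gk_nonneg _ _)]

/-- **time average for an expanding phase** -/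
theorem time_est {F : ℝ → ℂ} (hFm : Measurable F) {ψ : ℝ → ℝ} (hψ : Measurable ψ) (s : ℝ)
    {lam : ℝ} (hl : 0 < lam)
    (hexp : ∀ a ∈ Icc (0 : ℝ) s, ∀ b ∈ Icc (0 : ℝ) s, F a ≠ 0 → F b ≠ 0 →
      lam * |a - b| ≤ |ψ a - ψ b|) {T : ℝ} (hT : 0 < T) :
    ∫⁻ y in Icc (-T) T, ‖∫ c in Icc (0 : ℝ) s, Complex.exp (((y * ψ c : ℝ) : ℂ) * I) * F c‖ₑ ^ 2 ≤
      ENNReal.ofReal (18 / lam) * ∫⁻ c in Icc (0 : ℝ) s, ‖F c‖ₑ ^ 2 := by
  by_cases hfin : ∫⁻ c in Icc (0 : ℝ) s, ‖F c‖ₑ ^ 2 = ⊤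
  · rw [hfin, ENNReal.mul_top (by simpa using by positivity)]
    exact le_top
  set μ := (volume : Measure ℝ).restrict (Icc (0 : ℝ) s) with hμ
  have hμf : IsFiniteMeasure μ := ⟨by rw [hμ, Measure.restrict_apply_univ]; exact measure_Icc_lt_top⟩
  have hF2 : MemLp F 2 μ := by
    refine ⟨hFm.aestronglyMeasurable, ?_⟩
    rw [eLpNorm_lt_top_iff_lintegral_rpow_enorm_lt_top (by norm_num) (by norm_num)]
    simpa using lt_top_iff_ne_top.2 hfin
  have hF1 : Integrable F μ := hF2.integrable (by norm_num)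
  set ε : ℝ := 1 / T ^ 2 with hε
  have hε0 : 0 < ε := by positivity
  have h1 := pair μ hF1 hψ hε0
  have h2 : ∫⁻ y in Icc (-T) T, ‖∫ c, Complex.exp (((y * ψ c : ℝ) : ℂ) * I) * F c ∂μ‖ₑ ^ 2 ≤
      ENNReal.ofReal (Real.exp 1) * ∫⁻ y : ℝ, ENNReal.ofReal (Real.exp (-ε * y ^ 2) *
        ‖∫ c, Complex.exp (((y * ψ c : ℝ) : ℂ) * I) * F c ∂μ‖ ^ 2) := by
    rw [← lintegral_const_mul' _ _ ENNReal.ofReal_ne_top]
    refine (setLIntegral_mono' measurableSet_Icc fun y hy => ?_).trans (setLIntegral_le_lintegral _ _)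
    rw [← ENNReal.ofReal_mul (Real.exp_pos _).le, ← ofReal_norm,
      ← ENNReal.ofReal_pow (norm_nonneg _)]
    refine ENNReal.ofReal_le_ofReal ?_
    rw [← mul_assoc, ← Real.exp_add]
    refine le_mul_of_one_le_left (by positivity) (Real.one_le_exp ?_)
    have h3 : y ^ 2 ≤ T ^ 2 := sq_le_sq.2 (by rw [abs_of_pos hT]; exact abs_le.2 hy)
    have h4 : ε * y ^ 2 ≤ 1 := by
      rw [hε, one_div, inv_mul_le_iff₀ (by positivity)]
      linarith
    linarith
  refine h2.trans ?_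
  have h5 : ∫⁻ q : ℝ × ℝ, ENNReal.ofReal (‖F q.1‖ * ‖F q.2‖ * gk ε (ψ q.1 - ψ q.2)) ∂(μ.prod μ) ≤
      ENNReal.ofReal (2 * Real.pi / lam) * ∫⁻ c, ‖F c‖ₑ ^ 2 ∂μ := by
    have h6 : ∀ q : ℝ × ℝ, q.1 ∈ Icc (0 : ℝ) s → q.2 ∈ Icc (0 : ℝ) s →
        ENNReal.ofReal (‖F q.1‖ * ‖F q.2‖ * gk ε (ψ q.1 - ψ q.2)) ≤
        (2 : ℝ≥0∞)⁻¹ * (‖F q.1‖ₑ ^ 2 * ENNReal.ofReal (gk ε (lam * (q.1 - q.2))) +
          ‖F q.2‖ₑ ^ 2 * ENNReal.ofReal (gk ε (lam * (q.2 - q.1)))) := by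
      intro q h1 h2
      rcases eq_or_ne (F q.1) 0 with h0 | h0
      · simp [h0]
      rcases eq_or_ne (F q.2) 0 with h0' | h0'
      · simp [h0']
      have h7 := hexp q.1 h1 q.2 h2 h0 h0'
      have h8 : gk ε (ψ q.1 - ψ q.2) ≤ gk ε (lam * (q.1 - q.2)) :=
        gk_anti hε0 (by rw [abs_mul, abs_of_pos hl]; exact h7)
      have h9 : gk ε (lam * (q.2 - q.1)) = gk ε (lam * (q.1 - q.2)) := by
        unfold gk
        congr 2
        ring
      rw [h9, ← add_mul, ← ofReal_norm, ← ofReal_norm, ← ENNReal.ofReal_pow (norm_nonneg _),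
        ← ENNReal.ofReal_pow (norm_nonneg _), ← ENNReal.ofReal_add (by positivity) (by positivity),
        ← ENNReal.ofReal_mul (by positivity), show (2 : ℝ≥0∞)⁻¹ = ENNReal.ofReal (2⁻¹) by
          rw [ENNReal.ofReal_inv_of_pos (by norm_num)]; simp,
        ← ENNReal.ofReal_mul (by positivity)]
      refine ENNReal.ofReal_le_ofReal ?_
      have h10 : ‖F q.1‖ * ‖F q.2‖ ≤ 2⁻¹ * (‖F q.1‖ ^ 2 + ‖F q.2‖ ^ 2) := by
        nlinarith [sq_nonneg (‖F q.1‖ - ‖F q.2‖)]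
      calc ‖F q.1‖ * ‖F q.2‖ * gk ε (ψ q.1 - ψ q.2)
          ≤ (2⁻¹ * (‖F q.1‖ ^ 2 + ‖F q.2‖ ^ 2)) * gk ε (lam * (q.1 - q.2)) :=
            mul_le_mul h10 h8 (gk_nonneg _ _) (by positivity)
        _ = _ := by ring
    have hAm : Measurable fun q : ℝ × ℝ => ‖F q.1‖ₑ ^ 2 * ENNReal.ofReal (gk ε (lam * (q.1 - q.2))) := by
      have : Measurable fun q : ℝ × ℝ => gk ε (lam * (q.1 - q.2)) :=
        (gk_cont ε).measurable.comp (by fun_prop)
      exact ((hFm.comp measurable_fst).enorm.pow_const 2).mul this.ennreal_ofReal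
    have hBm : Measurable fun q : ℝ × ℝ => ‖F q.2‖ₑ ^ 2 * ENNReal.ofReal (gk ε (lam * (q.2 - q.1))) := by
      have : Measurable fun q : ℝ × ℝ => gk ε (lam * (q.2 - q.1)) :=
        (gk_cont ε).measurable.comp (by fun_prop)
      exact ((hFm.comp measurable_snd).enorm.pow_const 2).mul this.ennreal_ofReal
    have hA : ∫⁻ q : ℝ × ℝ, ‖F q.1‖ₑ ^ 2 * ENNReal.ofReal (gk ε (lam * (q.1 - q.2))) ∂(μ.prod μ) ≤
        ENNReal.ofReal (2 * Real.pi / lam) * ∫⁻ c, ‖F c‖ₑ ^ 2 ∂μ := by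
      rw [lintegral_prod _ hAm.aemeasurable, ← lintegral_const_mul' _ _ ENNReal.ofReal_ne_top]
      refine lintegral_mono fun c => ?_
      simp only
      rw [lintegral_const_mul' _ _ (by simp), mul_comm]
      refine mul_le_mul_left ?_ _
      refine (lintegral_mono' Measure.restrict_le_self le_rfl).trans ?_
      exact (gk_scaled hε0 hl c).le
    have hB : ∫⁻ q : ℝ × ℝ, ‖F q.2‖ₑ ^ 2 * ENNReal.ofReal (gk ε (lam * (q.2 - q.1))) ∂(μ.prod μ) ≤
        ENNReal.ofReal (2 * Real.pi / lam) * ∫⁻ c, ‖F c‖ₑ ^ 2 ∂μ := by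
      rw [← lintegral_prod_swap]
      exact hA
    have hmem : ∀ᵐ q ∂(μ.prod μ), q.1 ∈ Icc (0 : ℝ) s ∧ q.2 ∈ Icc (0 : ℝ) s := by
      rw [hμ, Measure.prod_restrict]
      exact (ae_restrict_mem (measurableSet_Icc.prod measurableSet_Icc)).mono fun q hq => hq
    calc ∫⁻ q : ℝ × ℝ, ENNReal.ofReal (‖F q.1‖ * ‖F q.2‖ * gk ε (ψ q.1 - ψ q.2)) ∂(μ.prod μ)
        ≤ ∫⁻ q : ℝ × ℝ, (2 : ℝ≥0∞)⁻¹ * (‖F q.1‖ₑ ^ 2 * ENNReal.ofReal (gk ε (lam * (q.1 - q.2))) +
          ‖F q.2‖ₑ ^ 2 * ENNReal.ofReal (gk ε (lam * (q.2 - q.1)))) ∂(μ.prod μ) :=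
          lintegral_mono_ae (hmem.mono fun q hq => h6 q hq.1 hq.2)
      _ = (2 : ℝ≥0∞)⁻¹ * (∫⁻ q : ℝ × ℝ, ‖F q.1‖ₑ ^ 2 *
            ENNReal.ofReal (gk ε (lam * (q.1 - q.2))) ∂(μ.prod μ) +
          ∫⁻ q : ℝ × ℝ, ‖F q.2‖ₑ ^ 2 * ENNReal.ofReal (gk ε (lam * (q.2 - q.1))) ∂(μ.prod μ)) := by
          rw [lintegral_const_mul' _ _ (by simp), lintegral_add_left hAm]
      _ ≤ (2 : ℝ≥0∞)⁻¹ * (ENNReal.ofReal (2 * Real.pi / lam) * ∫⁻ c, ‖F c‖ₑ ^ 2 ∂μ +
          ENNReal.ofReal (2 * Real.pi / lam) * ∫⁻ c, ‖F c‖ₑ ^ 2 ∂μ) := by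
          gcongr
      _ = _ := by
          rw [← two_mul, ← mul_assoc, ENNReal.inv_mul_cancel (by simp) (by simp), one_mul]
  refine (mul_le_mul_right (h1.trans h5) _).trans ?_
  rw [← mul_assoc, ← ENNReal.ofReal_mul (Real.exp_pos _).le]
  refine mul_le_mul_left (ENNReal.ofReal_le_ofReal ?_) _
  rw [← mul_div_assoc]
  refine div_le_div_of_nonneg_right ?_ hl.le
  have h11 := Real.exp_one_lt_d9
  have h12 := Real.pi_lt_d2
  have h13 := Real.pi_pos
  nlinarith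

end Pool.Agent.P8H68.DO
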