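import Pool.Agent.P8H68.DO.Orth
import Pool.Agent.P8H68.DO.Time

/-! Space-time estimates of one shell of the flow. -/

set_option autoImplicit false

open MeasureTheory Set Filter
open scoped ENNReal RealInnerProductSpace

namespace Pool.Agent.P8H68.DO

open Pool.Agent.Helper93.Sph (En ek Fi shell shell_meas)

variable {n : ℕ}

/-- the Fourier transform of `e^{itΦ(D)} f` -/
noncomputable def evo (Φ : En n → ℝ) (t : ℝ) (G : En n → ℂ) (ξ : En n) : ℂ :=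
  Complex.exp (((t * Φ ξ : ℝ) : ℂ) * Complex.I) * G ξ

lemma evo_norm (Φ : En n → ℝ) (t : ℝ) (G : En n → ℂ) (ξ : En n) : ‖evo Φ t G ξ‖ = ‖G ξ‖ := by
  rw [evo, norm_mul, Complex.norm_exp_ofReal_mul_I, one_mul]

lemma evo_meas {Φ : En n → ℝ} (hΦ : Measurable Φ) (t : ℝ) {G : En n → ℂ} (hG : Measurable G) :
    Measurable (evo Φ t G) :=
  (Complex.measurable_exp.comp ((Complex.measurable_ofReal.comp
    (hΦ.const_mul t)).mul_const Complex.I)).mul hG

/-- the flow with the extra factor `(Φ(ξ) - Φ(ζ)) / Λ` -/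
noncomputable def osc (e : En n) (s : ℝ) (Φ : En n → ℝ) (Λ : ℝ) (K : En n → ℂ) (t : ℝ) (ζ : En n) : ℂ :=
  ∫ u in Icc (0 : ℝ) s, Complex.exp (((t * Φ (ζ - u • e) : ℝ) : ℂ) * Complex.I) *
    (K (ζ - u • e) * (((Φ (ζ - u • e) - Φ ζ) / Λ : ℝ) : ℂ))

lemma av_evo_meas (e : En n) (s : ℝ) {Φ : En n → ℝ} (hΦ : Measurable Φ) {K : En n → ℂ}
    (hK : Measurable K) : Measurable (fun p : En n × ℝ => av e s (evo Φ p.2 K) p.1) := by
  have h1 : Measurable (fun q : (En n × ℝ) × ℝ => evo Φ q.1.2 K (q.1.1 - q.2 • e)) := by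
    unfold evo
    have h2 : Measurable (fun q : (En n × ℝ) × ℝ => q.1.1 - q.2 • e) := by fun_prop
    exact (Complex.measurable_exp.comp ((Complex.measurable_ofReal.comp
      ((measurable_snd.comp measurable_fst).mul (hΦ.comp h2))).mul_const Complex.I)).mul
      (hK.comp h2)
  exact (h1.stronglyMeasurable.integral_prod_right
    (ν := (volume : Measure ℝ).restrict (Icc (0 : ℝ) s))).measurable

lemma osc_meas (e : En n) (s : ℝ) {Φ : En n → ℝ} (hΦ : Measurable Φ) (Λ : ℝ) {K : En n → ℂ}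
    (hK : Measurable K) : Measurable (fun p : En n × ℝ => osc e s Φ Λ K p.2 p.1) := by
  have h1 : Measurable (fun q : (En n × ℝ) × ℝ =>
      Complex.exp (((q.1.2 * Φ (q.1.1 - q.2 • e) : ℝ) : ℂ) * Complex.I) *
      (K (q.1.1 - q.2 • e) * (((Φ (q.1.1 - q.2 • e) - Φ q.1.1) / Λ : ℝ) : ℂ))) := by
    have h2 : Measurable (fun q : (En n × ℝ) × ℝ => q.1.1 - q.2 • e) := by fun_prop
    have h3 : Measurable (fun q : (En n × ℝ) × ℝ => q.1.1) := by fun_prop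
    exact (Complex.measurable_exp.comp ((Complex.measurable_ofReal.comp
      ((measurable_snd.comp measurable_fst).mul (hΦ.comp h2))).mul_const Complex.I)).mul
      ((hK.comp h2).mul (Complex.measurable_ofReal.comp
        (((hΦ.comp h2).sub (hΦ.comp h3)).div_const Λ)))
  exact (h1.stronglyMeasurable.integral_prod_right
    (ν := (volume : Measure ℝ).restrict (Icc (0 : ℝ) s))).measurable

/-- expansion along the segments -/
def Expands (e : En n) (s : ℝ) (Φ : En n → ℝ) (lam Λ : ℝ) (K : En n → ℂ) : Prop :=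
  (∀ (ξ : En n) (τ : ℝ), |τ| ≤ s → K ξ ≠ 0 → K (ξ + τ • e) ≠ 0 → lam * |τ| ≤ |Φ (ξ + τ • e) - Φ ξ|) ∧
  ∀ (ξ : En n) (τ : ℝ), 0 ≤ τ → τ ≤ s → K ξ ≠ 0 → |Φ ξ - Φ (ξ + τ • e)| ≤ Λ

section

variable {e : En n} {s : ℝ} {Φ : En n → ℝ} {lam Λ : ℝ} {K : En n → ℂ}

lemma seg_exp (h : Expands e s Φ lam Λ K) (ζ : En n) :
    ∀ a ∈ Icc (0 : ℝ) s, ∀ b ∈ Icc (0 : ℝ) s, K (ζ - a • e) ≠ 0 → K (ζ - b • e) ≠ 0 →
      lam * |a - b| ≤ |Φ (ζ - a • e) - Φ (ζ - b • e)| := by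
  intro a ha b hb h1 h2
  have h3 := h.1 (ζ - a • e) (a - b) (by
    rw [abs_le]
    constructor
    · linarith [ha.1, hb.2]
    · linarith [ha.2, hb.1]) h1
  have h4 : ζ - a • e + (a - b) • e = ζ - b • e := by rw [sub_smul]; abel
  rw [h4] at h3
  rw [abs_sub_comm (Φ (ζ - a • e))]
  exact h3 h2

lemma seg_up (h : Expands e s Φ lam Λ K) (ζ : En n) :
    ∀ u ∈ Icc (0 : ℝ) s, K (ζ - u • e) ≠ 0 → |Φ (ζ - u • e) - Φ ζ| ≤ Λ := by
  intro u hu h1
  have h2 := h.2 (ζ - u • e) u hu.1 hu.2 h1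
  rwa [sub_add_cancel] at h2

lemma seg_meas (hK : Measurable K) (ζ : En n) : Measurable fun u : ℝ => K (ζ - u • e) :=
  hK.comp (by fun_prop : Continuous fun u : ℝ => ζ - u • e).measurable

/-- space-time estimate of the flow -/
theorem piece_main (hΦ : Measurable Φ) (hK : Measurable K) (hl : 0 < lam)
    (h : Expands e s Φ lam Λ K) {T : ℝ} (hT : 0 < T) :
    ∫⁻ ζ, ∫⁻ y in Icc (-T) T, ‖av e s (evo Φ y K) ζ‖ₑ ^ 2 ≤
      ENNReal.ofReal (18 / lam) * (ENNReal.ofReal s * ∫⁻ ξ, ‖K ξ‖ₑ ^ 2) := by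
  rw [← av_fub e s (hK.enorm.pow_const 2).aemeasurable, ← lintegral_const_mul' _ _ ENNReal.ofReal_ne_top]
  refine lintegral_mono fun ζ => ?_
  exact time_est (F := fun u => K (ζ - u • e)) (ψ := fun u => Φ (ζ - u • e)) (seg_meas hK ζ)
    (hΦ.comp (by fun_prop : Continuous fun u : ℝ => ζ - u • e).measurable) s hl
    (seg_exp h ζ) hT

theorem piece_osc (hΦ : Measurable Φ) (hK : Measurable K) (hl : 0 < lam) (hΛ : 0 < Λ)
    (h : Expands e s Φ lam Λ K) {T : ℝ} (hT : 0 < T) :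
    ∫⁻ ζ, ∫⁻ y in Icc (-T) T, ‖osc e s Φ Λ K y ζ‖ₑ ^ 2 ≤
      ENNReal.ofReal (18 / lam) * (ENNReal.ofReal s * ∫⁻ ξ, ‖K ξ‖ₑ ^ 2) := by
  rw [← av_fub e s (hK.enorm.pow_const 2).aemeasurable, ← lintegral_const_mul' _ _ ENNReal.ofReal_ne_top]
  refine lintegral_mono fun ζ => ?_
  have hcm : Measurable fun u : ℝ => Φ (ζ - u • e) :=
    hΦ.comp (by fun_prop : Continuous fun u : ℝ => ζ - u • e).measurable
  refine (time_est (F := fun u => K (ζ - u • e) * (((Φ (ζ - u • e) - Φ ζ) / Λ : ℝ) : ℂ))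
    (ψ := fun u => Φ (ζ - u • e))
    ((seg_meas hK ζ).mul (Complex.measurable_ofReal.comp ((hcm.sub_const _).div_const _)))
    hcm s hl ?_ hT).trans ?_
  · intro a ha b hb h1 h2
    exact seg_exp h ζ a ha b hb (left_ne_zero_of_mul h1) (left_ne_zero_of_mul h2)
  · refine mul_le_mul_right (setLIntegral_mono' measurableSet_Icc fun u hu => ?_) _
    refine pow_le_pow_left' ?_ 2
    rw [enorm_mul]
    rcases eq_or_ne (K (ζ - u • e)) 0 with h0 | h0
    · simp [h0]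
    · refine mul_le_of_le_one_right' ?_
      rw [← ofReal_norm, Complex.norm_real, Real.norm_eq_abs, abs_div, abs_of_pos hΛ,
        ← ENNReal.ofReal_one]
      refine ENNReal.ofReal_le_ofReal ?_
      rw [div_le_one hΛ]
      exact seg_up h ζ u hu h0

/-- the energy in the window `[a, a + 1/Λ]` -/
noncomputable def wen (e : En n) (s : ℝ) (Φ : En n → ℝ) (Λ : ℝ) (K : En n → ℂ) (a : ℝ) : ℝ≥0∞ :=
  ENNReal.ofReal (2 * Λ) * (∫⁻ ζ, ∫⁻ y in Icc a (a + 1 / Λ), ‖av e s (evo Φ y K) ζ‖ₑ ^ 2) +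
  ENNReal.ofReal (2 * Λ) * (∫⁻ ζ, ∫⁻ y in Icc a (a + 1 / Λ), ‖osc e s Φ Λ K y ζ‖ₑ ^ 2)

theorem piece_window (hΦ : Measurable Φ) (hK : Measurable K) (hΛ : 0 < Λ)
    (h : Expands e s Φ lam Λ K) {a t : ℝ} (ht : t ∈ Icc a (a + 1 / Λ)) :
    ∫⁻ ζ, ‖av e s (evo Φ t K) ζ‖ₑ ^ 2 ≤ wen e s Φ Λ K a := by
  have hm : ∀ ⦃f : En n × ℝ → ℂ⦄, Measurable f →
      Measurable fun ζ => ∫⁻ y in Icc a (a + 1 / Λ), ‖f (ζ, y)‖ₑ ^ 2 := fun f hf =>
    (hf.enorm.pow_const 2).lintegral_prod_right' (ν := volume.restrict (Icc a (a + 1 / Λ)))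
  rw [wen, ← lintegral_const_mul' _ _ ENNReal.ofReal_ne_top,
    ← lintegral_const_mul' _ _ ENNReal.ofReal_ne_top,
    ← lintegral_add_left ((hm (av_evo_meas e s hΦ hK)).const_mul _)]
  refine lintegral_mono fun ζ => ?_
  have hcm : Measurable fun u : ℝ => Φ (ζ - u • e) :=
    hΦ.comp (by fun_prop : Continuous fun u : ℝ => ζ - u • e).measurable
  exact window (F := fun u => K (ζ - u • e)) (ψ := fun u => Φ (ζ - u • e)) (seg_meas hK ζ) hcm s
    (Φ ζ) hΛ (seg_up h ζ) ht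

end

/-- consecutive windows -/
lemma sum_windows (f : ℝ → ℝ≥0∞) (a h : ℝ) (hh : 0 ≤ h) (M : ℕ) :
    ∑ q ∈ Finset.range M, ∫⁻ y in Icc (a + q * h) (a + q * h + h), f y =
      ∫⁻ y in Icc a (a + M * h), f y := by
  induction M with
  | zero => simp
  | succ M ih =>
    rw [Finset.sum_range_succ, ih]
    have h1 : Icc a (a + ((M + 1 : ℕ) : ℝ) * h) =
        Icc a (a + M * h) ∪ Ioc (a + M * h) (a + M * h + h) := by
      rw [Icc_union_Ioc_eq_Icc (by positivity |> fun (h : 0 ≤ (M : ℝ) * h) => by linarith) (by linarith)]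
      congr 1
      push_cast
      ring
    rw [h1, lintegral_union measurableSet_Ioc]
    · congr 1
      exact setLIntegral_congr Ioc_ae_eq_Icc.symm
    · rw [Set.disjoint_left]
      intro x hx hx'
      exact absurd hx.2 (not_le.2 hx'.1)

end Pool.Agent.P8H68.DO
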