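import Mathlib

/-! The powers of the norm are dispersive phases. -/

set_option autoImplicit false

open Set Filter Topology

namespace Pool.Agent.P8H68.DO

lemma pow_osc (b : ℝ) {ε : ℝ} (hε : 0 < ε) :
    ∃ κ : ℝ, 0 < κ ∧ κ ≤ 1 / 2 ∧ ∀ u : ℝ, |u - 1| < κ → |1 - u ^ b| * u ≤ ε := by
  have hc : ContinuousAt (fun u : ℝ => |1 - u ^ b| * u) 1 := by
    have h1 : ContinuousAt (fun u : ℝ => u ^ b) 1 := Real.continuousAt_rpow_const _ _ (Or.inl one_ne_zero)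
    exact ((continuousAt_const.sub h1).abs).mul continuousAt_id
  rw [Metric.continuousAt_iff] at hc
  obtain ⟨κ, hκ, h⟩ := hc ε hε
  refine ⟨min κ (1 / 2), by positivity, min_le_right _ _, fun u hu => ?_⟩
  have h1 := h (x := u) (by rw [Real.dist_eq]; exact hu.trans_le (min_le_left _ _))
  rw [Real.dist_eq] at h1
  simp only [Real.one_rpow, sub_self, abs_zero, zero_mul, sub_zero] at h1
  exact (le_abs_self _).trans h1.le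

variable {V : Type*} [NormedAddCommGroup V] [InnerProductSpace ℝ V]

theorem pow_slow {a : ℝ} (ha : 1 < a) {ε : ℝ} (hε : 0 < ε) :
    ∃ r : ℝ, ∀ ξ η : V, r ≤ ‖ξ‖ → ‖ξ - η‖ ≤ 1 →
      ‖fderiv ℝ (fun ξ : V => ‖ξ‖ ^ a) ξ - fderiv ℝ (fun ξ : V => ‖ξ‖ ^ a) η‖ ≤ ε * ‖ξ‖ ^ (a - 1) := by
  have ha0 : 0 < a := by linarith
  obtain ⟨κ, hκ, hκ2, h⟩ := pow_osc (a - 2) (ε := ε / (2 * a)) (by positivity)
  refine ⟨max (2 / κ) (2 * a / ε), fun ξ η hξ hη => ?_⟩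
  have hr1 : 2 / κ ≤ ‖ξ‖ := (le_max_left _ _).trans hξ
  have hr2 : 2 * a / ε ≤ ‖ξ‖ := (le_max_right _ _).trans hξ
  have hx : 0 < ‖ξ‖ := lt_of_lt_of_le (by positivity) hr1
  have hu : |‖η‖ / ‖ξ‖ - 1| < κ := by
    have h1 : ‖η‖ / ‖ξ‖ - 1 = (‖η‖ - ‖ξ‖) / ‖ξ‖ := by field_simp
    rw [h1, abs_div, abs_of_pos hx, div_lt_iff₀ hx]
    have h2 : |‖η‖ - ‖ξ‖| ≤ 1 := by
      rw [abs_sub_comm]
      exact (abs_norm_sub_norm_le _ _).trans hη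
    have h3 : 2 ≤ κ * ‖ξ‖ := by
      rw [div_le_iff₀ hκ] at hr1
      linarith
    linarith
  have hk := h _ hu
  have hupos : 0 < ‖η‖ / ‖ξ‖ := by
    have := (abs_lt.1 hu).1
    linarith
  have hy : 0 < ‖η‖ := by
    by_contra h'
    have : ‖η‖ = 0 := le_antisymm (not_lt.1 h') (norm_nonneg _)
    rw [this, zero_div] at hupos
    exact lt_irrefl _ hupos
  rw [fderiv_norm_rpow ξ ha, fderiv_norm_rpow η ha]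
  have hsplit : (a * ‖ξ‖ ^ (a - 2)) • innerSL ℝ ξ - (a * ‖η‖ ^ (a - 2)) • innerSL ℝ η =
      (a * ‖ξ‖ ^ (a - 2)) • innerSL ℝ (ξ - η) + (a * (‖ξ‖ ^ (a - 2) - ‖η‖ ^ (a - 2))) • innerSL ℝ η := by
    rw [map_sub]
    module
  rw [hsplit]
  have hb : ‖ξ‖ ^ (a - 1) = ‖ξ‖ ^ (a - 2) * ‖ξ‖ := by
    rw [← Real.rpow_add_one hx.ne']
    congr 1
    ring
  have h5 : ‖(a * ‖ξ‖ ^ (a - 2)) • innerSL ℝ (ξ - η)‖ ≤ ε / 2 * ‖ξ‖ ^ (a - 1) := by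
    rw [norm_smul, innerSL_apply_norm, Real.norm_eq_abs, abs_of_pos (by positivity), hb]
    have h6 : a ≤ ε / 2 * ‖ξ‖ := by
      rw [div_le_iff₀ hε] at hr2
      linarith
    have h7 : 0 < ‖ξ‖ ^ (a - 2) := by positivity
    calc a * ‖ξ‖ ^ (a - 2) * ‖ξ - η‖ ≤ a * ‖ξ‖ ^ (a - 2) * 1 := by gcongr
      _ = ‖ξ‖ ^ (a - 2) * a := by ring
      _ ≤ ‖ξ‖ ^ (a - 2) * (ε / 2 * ‖ξ‖) := by gcongr
      _ = _ := by ring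
  have h8 : ‖(a * (‖ξ‖ ^ (a - 2) - ‖η‖ ^ (a - 2))) • innerSL ℝ η‖ ≤ ε / 2 * ‖ξ‖ ^ (a - 1) := by
    rw [norm_smul, innerSL_apply_norm, Real.norm_eq_abs, abs_mul, abs_of_pos ha0, hb]
    have h9 : ‖η‖ ^ (a - 2) = ‖ξ‖ ^ (a - 2) * (‖η‖ / ‖ξ‖) ^ (a - 2) := by
      rw [← Real.mul_rpow hx.le hupos.le]
      congr 1
      field_simp
    have h10 : ‖ξ‖ ^ (a - 2) - ‖η‖ ^ (a - 2) = ‖ξ‖ ^ (a - 2) * (1 - (‖η‖ / ‖ξ‖) ^ (a - 2)) := by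
      rw [h9]; ring
    have h7 : 0 < ‖ξ‖ ^ (a - 2) := by positivity
    rw [h10, abs_mul, abs_of_pos h7]
    have h11 : ‖η‖ = ‖η‖ / ‖ξ‖ * ‖ξ‖ := by field_simp
    calc a * (‖ξ‖ ^ (a - 2) * |1 - (‖η‖ / ‖ξ‖) ^ (a - 2)|) * ‖η‖
        = a * ‖ξ‖ ^ (a - 2) * ‖ξ‖ * (|1 - (‖η‖ / ‖ξ‖) ^ (a - 2)| * (‖η‖ / ‖ξ‖)) := by
          conv_lhs => rw [h11]
          have h12 : ‖η‖ / ‖ξ‖ * ‖ξ‖ / ‖ξ‖ = ‖η‖ / ‖ξ‖ := by field_simp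
          rw [h12]
          ring
      _ ≤ a * ‖ξ‖ ^ (a - 2) * ‖ξ‖ * (ε / (2 * a)) := by gcongr
      _ = _ := by field_simp
  calc _ ≤ _ := norm_add_le _ _
    _ ≤ ε / 2 * ‖ξ‖ ^ (a - 1) + ε / 2 * ‖ξ‖ ^ (a - 1) := add_le_add h5 h8
    _ = _ := by ring

end Pool.Agent.P8H68.DO
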