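import Mathlib

/-! The chaining inequality of Rademacher and Menshov for squares. -/

set_option autoImplicit false

open Finset
open scoped ENNReal

namespace Pool.Agent.P8H68.DO

theorem block_sq (z : ℕ → ℂ) (n k : ℕ) :
    ‖∑ i ∈ range (n / 2 ^ k * 2 ^ k), z i - ∑ i ∈ range (n / 2 ^ (k + 1) * 2 ^ (k + 1)), z i‖ ^ 2 ≤
      ‖∑ i ∈ Ico (2 * (n / 2 ^ (k + 1)) * 2 ^ k) ((2 * (n / 2 ^ (k + 1)) + 1) * 2 ^ k), z i‖ ^ 2 ∧
    (n / 2 ^ k * 2 ^ k = n / 2 ^ (k + 1) * 2 ^ (k + 1) ∨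
      n / 2 ^ k = 2 * (n / 2 ^ (k + 1)) + 1) := by
  set q := n / 2 ^ k with hq
  have h1 : n / 2 ^ (k + 1) = q / 2 := by
    rw [hq, Nat.div_div_eq_div_mul, pow_succ]
  rw [h1]
  have h2 : q / 2 * 2 ^ (k + 1) = 2 * (q / 2) * 2 ^ k := by
    rw [pow_succ]
    ring
  rw [h2]
  rcases Nat.even_or_odd' q with ⟨m, hm | hm⟩
  · have h3 : q / 2 = m := by omega
    rw [h3, hm, sub_self, norm_zero]
    refine ⟨by rw [zero_pow (by norm_num)]; positivity, Or.inl rfl⟩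
  · have h3 : q / 2 = m := by omega
    rw [h3, hm]
    refine ⟨le_of_eq ?_, Or.inr rfl⟩
    congr 2
    have h4 : 2 * m * 2 ^ k ≤ (2 * m + 1) * 2 ^ k := Nat.mul_le_mul_right _ (by omega)
    rw [Finset.sum_Ico_eq_sub _ h4]

theorem cs_sq {L : ℕ} (x : ℕ → ℂ) :
    ‖∑ k ∈ range L, x k‖ ^ 2 ≤ (L : ℝ) * ∑ k ∈ range L, ‖x k‖ ^ 2 := by
  have h1 : ‖∑ k ∈ range L, x k‖ ^ 2 ≤ (∑ k ∈ range L, ‖x k‖) ^ 2 :=
    pow_le_pow_left₀ (norm_nonneg _) (norm_sum_le _ _) 2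
  refine h1.trans ?_
  have h3 := sq_sum_le_card_mul_sum_sq (s := range L) (f := fun k => ‖x k‖)
  rwa [card_range] at h3

/-- the maximal inequality of Rademacher and Menshov -/
theorem maximal_sq (z : ℕ → ℂ) (L n : ℕ) (hn : n < 2 ^ L) :
    ‖∑ i ∈ range n, z i‖ ^ 2 ≤ (L : ℝ) * ∑ k ∈ range L, ∑ j ∈ range (2 ^ (L - k)),
      ‖∑ i ∈ Ico (j * 2 ^ k) ((j + 1) * 2 ^ k), z i‖ ^ 2 := by
  have h1 : ∑ i ∈ range n, z i = ∑ k ∈ range L,
      (∑ i ∈ range (n / 2 ^ k * 2 ^ k), z i -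
        ∑ i ∈ range (n / 2 ^ (k + 1) * 2 ^ (k + 1)), z i) := by
    rw [Finset.sum_range_sub' (fun k => ∑ i ∈ range (n / 2 ^ k * 2 ^ k), z i)]
    have h2 : n / 2 ^ L = 0 := Nat.div_eq_of_lt hn
    rw [h2]
    simp
  rw [h1]
  refine (cs_sq _).trans ?_
  apply mul_le_mul_of_nonneg_left _ (by positivity)
  refine Finset.sum_le_sum fun k hk => ?_
  rw [mem_range] at hk
  obtain ⟨h2, h3⟩ := block_sq z n k
  rcases h3 with h3 | h3
  · rw [h3, sub_self, norm_zero]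
    have : (0 : ℝ) ^ 2 = 0 := by norm_num
    rw [this]
    exact Finset.sum_nonneg fun j _ => by positivity
  · refine h2.trans ?_
    have h4 : 2 * (n / 2 ^ (k + 1)) ∈ range (2 ^ (L - k)) := by
      rw [mem_range]
      have h5 : n / 2 ^ k < 2 ^ (L - k) := by
        rw [Nat.div_lt_iff_lt_mul (by positivity), ← pow_add]
        have : L - k + k = L := by omega
        rwa [this]
      omega
    exact Finset.single_le_sum
      (f := fun j => ‖∑ i ∈ Ico (j * 2 ^ k) ((j + 1) * 2 ^ k), z i‖ ^ 2)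
      (fun j _ => by positivity) h4

lemma enorm_sq_eq (z : ℂ) : ‖z‖ₑ ^ 2 = ENNReal.ofReal (‖z‖ ^ 2) := by
  rw [← ofReal_norm, ENNReal.ofReal_pow (norm_nonneg _)]

theorem maximal_enorm (z : ℕ → ℂ) (L n : ℕ) (hn : n < 2 ^ L) :
    ‖∑ i ∈ range n, z i‖ₑ ^ 2 ≤ (L : ℝ≥0∞) * ∑ k ∈ range L, ∑ j ∈ range (2 ^ (L - k)),
      ‖∑ i ∈ Ico (j * 2 ^ k) ((j + 1) * 2 ^ k), z i‖ₑ ^ 2 := by
  have h := ENNReal.ofReal_le_ofReal (maximal_sq z L n hn)
  rw [← enorm_sq_eq] at h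
  refine h.trans (le_of_eq ?_)
  rw [ENNReal.ofReal_mul (by positivity), ENNReal.ofReal_natCast,
    ENNReal.ofReal_sum_of_nonneg (fun k _ => Finset.sum_nonneg fun j _ => by positivity)]
  congr 1
  refine Finset.sum_congr rfl fun k _ => ?_
  rw [ENNReal.ofReal_sum_of_nonneg (fun j _ => by positivity)]
  exact Finset.sum_congr rfl fun j _ => (enorm_sq_eq _).symm

/-- blocks of one level partition the range -/
theorem sum_blocks (w : ℕ → ℝ≥0∞) (L k : ℕ) (hk : k ≤ L) :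
    ∑ j ∈ range (2 ^ (L - k)), ∑ i ∈ Ico (j * 2 ^ k) ((j + 1) * 2 ^ k), w i =
      ∑ i ∈ range (2 ^ L), w i := by
  have h : ∀ N : ℕ, ∑ j ∈ range N, ∑ i ∈ Ico (j * 2 ^ k) ((j + 1) * 2 ^ k), w i =
      ∑ i ∈ range (N * 2 ^ k), w i := by
    intro N
    induction N with
    | zero => simp
    | succ N ih =>
      rw [Finset.sum_range_succ, ih, Finset.range_eq_Ico, Finset.range_eq_Ico,
        Finset.sum_Ico_consecutive _ (by omega) (Nat.mul_le_mul_right _ (by omega))]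
  rw [h, ← pow_add]
  congr 3
  omega

end Pool.Agent.P8H68.DO
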